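import Pool.Agent.EA.Kneser

/-!
# EA: the combinatorial inequality
-/

set_option autoImplicit false

namespace Pool.Agent.EA

theorem pairs_le {n r d : ℕ} (hn : n = 2 * r + d)
    (B Lr Ld Lp : Finset (Finset (Fin n)))
    (cB : ∀ R ∈ B, R.card = r) (hB : ∀ R ∈ B, Rᶜ ∉ Lp)
    (cr : ∀ S ∈ Lr, S.card = r) (cd : ∀ S ∈ Ld, S.card = d)
    (hprod : ∀ S ∈ Lr, ∀ T ∈ Ld, Disjoint S T → S ∪ T ∈ Lp) (ρ : ℕ)
    (h2 : n.choose d ≤ Ld.card + ρ) :
    pairs B Lr ≤ ρ * (2 * r).choose r := by
  classical
  set X : Finset (Finset (Fin n)) := Finset.powersetCard d Finset.univ \ Ld with hX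
  have hXc : X.card ≤ ρ := by
    have h3 : Ld ⊆ Finset.powersetCard d Finset.univ := by
      intro S hS
      rw [Finset.mem_powersetCard]
      exact ⟨Finset.subset_univ _, cd S hS⟩
    rw [hX, Finset.card_sdiff_of_subset h3, Finset.card_powersetCard, Finset.card_univ,
      Fintype.card_fin]
    omega
  have h4 : (X.sigma fun T => Finset.powersetCard r Tᶜ).card = X.card * (2 * r).choose r := by
    rw [Finset.card_sigma, Finset.sum_const_nat]
    intro T hT
    rw [hX, Finset.mem_sdiff, Finset.mem_powersetCard] at hT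
    rw [Finset.card_powersetCard, Finset.card_compl, Fintype.card_fin, hT.1.2]
    congr 1
    omega
  have h5 : pairs B Lr ≤ (X.sigma fun T => Finset.powersetCard r Tᶜ).card := by
    unfold pairs
    apply Finset.card_le_card_of_injOn
      (fun p : Finset (Fin n) × Finset (Fin n) =>
        (⟨(p.1 ∪ p.2)ᶜ, p.2⟩ : Σ _ : Finset (Fin n), Finset (Fin n)))
    · rintro ⟨R, S⟩ hp
      rw [Finset.mem_coe, Finset.mem_filter, Finset.mem_product] at hp
      obtain ⟨⟨hR, hS⟩, hd⟩ := hp
      dsimp only at hR hS hd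
      rw [Finset.mem_coe, Finset.mem_sigma]
      dsimp only
      constructor
      · rw [hX, Finset.mem_sdiff, Finset.mem_powersetCard]
        refine ⟨⟨Finset.subset_univ _, ?_⟩, ?_⟩
        · rw [Finset.card_compl, Fintype.card_fin, Finset.card_union_of_disjoint hd, cB R hR,
            cr S hS]
          omega
        · intro hLd
          have hd2 : Disjoint S (R ∪ S)ᶜ := by
            rw [Finset.disjoint_left]
            intro i hi hi2
            rw [Finset.mem_compl, Finset.mem_union] at hi2
            exact hi2 (Or.inr hi)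
          have h6 := hprod S hS _ hLd hd2
          apply hB R hR
          have h7 : S ∪ (R ∪ S)ᶜ = Rᶜ := by
            ext i
            rw [Finset.mem_union, Finset.mem_compl, Finset.mem_compl, Finset.mem_union]
            constructor
            · rintro (h | h)
              · exact Finset.disjoint_right.mp hd h
              · exact fun h' => h (Or.inl h')
            · intro h
              by_cases hi : i ∈ S
              · exact Or.inl hi
              · exact Or.inr (by tauto)
          rwa [h7] at h6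
      · rw [Finset.mem_powersetCard, compl_compl]
        exact ⟨Finset.subset_union_right, cr S hS⟩
    · rintro ⟨R, S⟩ hp ⟨R', S'⟩ hp' he
      rw [Finset.mem_coe, Finset.mem_filter, Finset.mem_product] at hp hp'
      have hd : Disjoint R S := hp.2
      have hd' : Disjoint R' S' := hp'.2
      have he1 : (R ∪ S)ᶜ = (R' ∪ S')ᶜ := congrArg Sigma.fst he
      have he2 : S = S' := by
        have := congrArg (fun q : (Σ _ : Finset (Fin n), Finset (Fin n)) => q.2) he
        exact this
      subst he2
      have he3 : R ∪ S = R' ∪ S := compl_injective he1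
      have he4 : R = R' := by
        rw [← Finset.union_sdiff_cancel_right hd, he3, Finset.union_sdiff_cancel_right hd']
      rw [he4]
  rw [h4] at h5
  exact h5.trans (Nat.mul_le_mul_right _ hXc)

theorem comb {n r d : ℕ} (hn : n = 2 * r + d) (hr : 1 ≤ r) (hd : 1 ≤ d)
    (Lr Ld Lp : Finset (Finset (Fin n))) (cr : ∀ S ∈ Lr, S.card = r)
    (cd : ∀ S ∈ Ld, S.card = d)
    (hprod : ∀ S ∈ Lr, ∀ T ∈ Ld, Disjoint S T → S ∪ T ∈ Lp) (ρ : ℕ)
    (h1 : n.choose r ≤ Lr.card + ρ) (h2 : n.choose d ≤ Ld.card + ρ)
    (h3 : Lp.card + ρ + 1 ≤ n.choose r) :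
    (ρ + 1) * Lr.card * (n - r - 1).choose r ≤ ρ * (2 * r).choose r * n.choose r := by
  classical
  set B : Finset (Finset (Fin n)) :=
    (Finset.powersetCard r Finset.univ).filter fun R => Rᶜ ∉ Lp with hBdef
  have cB : ∀ R ∈ B, R.card = r := by
    intro R hR
    rw [hBdef, Finset.mem_filter, Finset.mem_powersetCard] at hR
    exact hR.1.2
  have hB : ∀ R ∈ B, Rᶜ ∉ Lp := by
    intro R hR
    rw [hBdef, Finset.mem_filter] at hR
    exact hR.2
  have hBc : ρ + 1 ≤ B.card := by
    have h4 : B.card + ((Finset.powersetCard r (Finset.univ : Finset (Fin n))).filter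
        fun R => ¬ (Rᶜ ∉ Lp)).card = n.choose r := by
      rw [hBdef, Finset.card_filter_add_card_filter_not, Finset.card_powersetCard,
        Finset.card_univ, Fintype.card_fin]
    have h5 : ((Finset.powersetCard r (Finset.univ : Finset (Fin n))).filter
        fun R => ¬ (Rᶜ ∉ Lp)).card ≤ Lp.card := by
      apply Finset.card_le_card_of_injOn (fun R => Rᶜ)
      · intro R hR
        rw [Finset.mem_coe, Finset.mem_filter] at hR
        exact Finset.mem_coe.mpr (not_not.mp hR.2)
      · intro R _ R' _ he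
        exact compl_injective he
    omega
  have h6 := expander hr (by omega) B Lr cB cr (by omega)
  have h7 := pairs_le hn B Lr Ld Lp cB hB cr cd hprod ρ h2
  calc (ρ + 1) * Lr.card * (n - r - 1).choose r
      ≤ B.card * Lr.card * (n - r - 1).choose r := by gcongr
    _ ≤ pairs B Lr * n.choose r := h6
    _ ≤ ρ * (2 * r).choose r * n.choose r := by gcongr

/-- `C(2r, r) ≤ C(2r+2, r) / 2` -/
theorem two_choose_le {r d : ℕ} (hr : 1 ≤ r) (hd : r + 3 ≤ d) :
    2 * (2 * r).choose r ≤ (r + d - 1).choose r := by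
  have h1 : (2 * r + 2).choose r ≤ (r + d - 1).choose r := Nat.choose_le_choose r (by omega)
  refine le_trans ?_ h1
  have a1 : (2 * r).choose r * (2 * r + 1) = (2 * r + 1).choose r * (r + 1) := by
    have := Nat.choose_mul_succ_eq (2 * r) r
    rw [this]
    congr 1
    omega
  have a2 : (2 * r + 1).choose r * (2 * r + 2) = (2 * r + 2).choose r * (r + 2) := by
    have := Nat.choose_mul_succ_eq (2 * r + 1) r
    rw [show 2 * r + 1 + 1 = 2 * r + 2 by ring] at this
    rw [this]
    congr 1
    omega
  -- 2 C(2r,r) (r+2)(r+1) ≤ C(2r+2,r)(r+2)(r+1) = C(2r,r)(2r+1)(2r+2)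
  have key : (2 * (2 * r).choose r) * ((r + 2) * (r + 1))
      ≤ (2 * r + 2).choose r * ((r + 2) * (r + 1)) := by
    have e1 : (2 * r + 2).choose r * ((r + 2) * (r + 1))
        = (2 * r).choose r * ((2 * r + 1) * (2 * r + 2)) := by
      calc (2 * r + 2).choose r * ((r + 2) * (r + 1))
          = ((2 * r + 2).choose r * (r + 2)) * (r + 1) := by ring
        _ = ((2 * r + 1).choose r * (r + 1)) * (2 * r + 2) := by rw [← a2]; ring
        _ = (2 * r).choose r * ((2 * r + 1) * (2 * r + 2)) := by rw [← a1]; ring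
    rw [e1]
    have e2 : 2 * ((r + 2) * (r + 1)) ≤ (2 * r + 1) * (2 * r + 2) := by nlinarith
    calc 2 * (2 * r).choose r * ((r + 2) * (r + 1))
        = (2 * r).choose r * (2 * ((r + 2) * (r + 1))) := by ring
      _ ≤ (2 * r).choose r * ((2 * r + 1) * (2 * r + 2)) := Nat.mul_le_mul_left _ e2
  exact Nat.le_of_mul_le_mul_right key (by positivity)

end Pool.Agent.EA
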