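import Pool.Agent.EA.Prod

/-!
# EA: a generic form over an algebraically closed field with derivations
-/

set_option autoImplicit false

namespace Pool.Agent.EA

open ExteriorAlgebra Module

/-- derivations of `⋀ V_n` that act on the coefficients and take the form `f` to the `x_S` -/
structure DerData (K : Type) [Field K] (n d : ℕ) (f : E K n) where
  /-- the derivations -/
  D : Finset (Fin n) → E K n →+ E K n
  leib : ∀ S y z, D S (y * z) = D S y * z + y * D S z
  deg : ∀ S s y, y ∈ ⋀[K]^s (V K n) → D S y ∈ ⋀[K]^s (V K n)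
  form : ∀ S : Finset (Fin n), S.card = d → D S f = x K n S

/-- derivations of a formally étale extension of a polynomial ring -/
private theorem exists_der (I K : Type) [DecidableEq I] [Field K] [Algebra ℚ K]
    [Algebra (MvPolynomial I ℚ) K] [IsScalarTower ℚ (MvPolynomial I ℚ) K]
    [Algebra.FormallyEtale (MvPolynomial I ℚ) K] (S : I) :
    ∃ δ : Derivation ℚ K K, ∀ T : I, δ (algebraMap (MvPolynomial I ℚ) K (MvPolynomial.X T))
      = if T = S then 1 else 0 := by
  let D0 : Derivation ℚ (MvPolynomial I ℚ) K :=
    MvPolynomial.mkDerivation ℚ (fun T => if T = S then (1 : K) else 0)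
  have h := KaehlerDifferential.isBaseChange_of_formallyEtale ℚ (MvPolynomial I ℚ) K
  refine ⟨(h.lift D0.liftKaehlerDifferential).compDer (KaehlerDifferential.D ℚ K), fun T => ?_⟩
  have h1 := h.lift_eq D0.liftKaehlerDifferential
    (KaehlerDifferential.D ℚ (MvPolynomial I ℚ) (MvPolynomial.X T))
  rw [KaehlerDifferential.map_D, Derivation.liftKaehlerDifferential_comp_D] at h1
  have h2 : D0 (MvPolynomial.X T) = if T = S then 1 else 0 := MvPolynomial.mkDerivation_X _ _ _
  rw [h2] at h1
  exact h1

section Ext

variable {K : Type} [Field K] {n : ℕ}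

/-- the action of an additive map on the coordinates -/
private noncomputable def act (δ : K →+ K) : E K n →+ E K n where
  toFun y := ∑ S, δ (co K n S y) • x K n S
  map_zero' := by simp
  map_add' y z := by simp [add_smul, Finset.sum_add_distrib]

private theorem co_act (δ : K →+ K) (U : Finset (Fin n)) (y : E K n) :
    co K n U (act δ y) = δ (co K n U y) := by
  classical
  change co K n U (∑ S, δ (co K n S y) • x K n S) = _
  rw [map_sum, Finset.sum_eq_single U]
  · rw [map_smul, co_x, if_pos rfl, smul_eq_mul, mul_one]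
  · intro S _ hS
    rw [map_smul, co_x, if_neg hS, smul_zero]
  · intro h; exact absurd (Finset.mem_univ _) h

private theorem act_leib (δ : K →+ K) (hδ : ∀ a b, δ (a * b) = δ a * b + a * δ b)
    (y z : E K n) : act δ (y * z) = act δ y * z + y * act δ z := by
  apply co_ext
  intro U
  rw [co_act, map_add, co_mul, co_mul, co_mul, map_sum, ← Finset.sum_add_distrib]
  refine Finset.sum_congr rfl fun S _ => ?_
  rw [co_act, co_act, ← zsmul_eq_mul, map_zsmul, hδ, zsmul_eq_mul]
  ring

private theorem act_deg (δ : K →+ K) {s : ℕ} {y : E K n} (hy : y ∈ ⋀[K]^s (V K n)) :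
    act δ y ∈ ⋀[K]^s (V K n) := by
  refine mem_of_co fun S hS => ?_
  rw [co_act, co_eq_zero hy hS, map_zero]

end Ext

/-- the index set of the coefficients -/
private abbrev Idx (n d : ℕ) : Type := {S : Finset (Fin n) // S.card = d}

private theorem exists_derData_aux (K : Type) [Field K] [CharZero K] (n d : ℕ)
    [Algebra (MvPolynomial (Idx n d) ℚ) K] [IsScalarTower ℚ (MvPolynomial (Idx n d) ℚ) K]
    [Algebra.FormallyEtale (MvPolynomial (Idx n d) ℚ) K]
    (hinj : Function.Injective (algebraMap (MvPolynomial (Idx n d) ℚ) K)) :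
    ∃ f : E K n, IsGeneric K n d f ∧ Nonempty (DerData K n d f) := by
  classical
  set c : Idx n d → K := fun S => algebraMap (MvPolynomial (Idx n d) ℚ) K (MvPolynomial.X S)
    with hc
  have hind : AlgebraicIndependent ℚ c := by
    have h1 := (MvPolynomial.algebraicIndependent_X (Idx n d) ℚ).map'
      (f := IsScalarTower.toAlgHom ℚ (MvPolynomial (Idx n d) ℚ) K) hinj
    exact h1
  choose δ hδ using fun S : Idx n d => exists_der (Idx n d) K S
  set f : E K n := ∑ S, c S • x K n S with hf
  refine ⟨f, ⟨c, hind.injective, ?_, hind, rfl⟩, ⟨⟨fun S =>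
    if h : S.card = d then act ((δ ⟨S, h⟩ : K →ₗ[ℚ] K) : K →+ K) else 0, ?_, ?_, ?_⟩⟩⟩
  · rintro S ⟨q, hq⟩
    exact hind.transcendental S (hq ▸ isAlgebraic_algebraMap q)
  · intro S y z
    split_ifs with h
    · refine act_leib _ (fun a b => ?_) y z
      change δ ⟨S, h⟩ (a * b) = δ ⟨S, h⟩ a * b + a * δ ⟨S, h⟩ b
      rw [Derivation.leibniz, smul_eq_mul, smul_eq_mul]
      ring
    · simp
  · intro S s y hy
    split_ifs with h
    · exact act_deg _ hy
    · simp
  · intro S hS
    rw [dif_pos hS]
    apply co_ext
    intro U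
    rw [co_act, co_x]
    have h1 : co K n U f = if h : U.card = d then c ⟨U, h⟩ else 0 := by
      rw [hf, map_sum]
      split_ifs with h
      · rw [Finset.sum_eq_single (⟨U, h⟩ : Idx n d)]
        · rw [map_smul, co_x, if_pos rfl, smul_eq_mul, mul_one]
        · intro T _ hT
          rw [map_smul, co_x, if_neg, smul_zero]
          intro h2
          exact hT (Subtype.ext h2)
        · intro h2; exact absurd (Finset.mem_univ _) h2
      · refine Finset.sum_eq_zero fun T _ => ?_
        rw [map_smul, co_x, if_neg, smul_zero]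
        rintro rfl
        exact h T.2
    rw [h1]
    split_ifs with h h2 h2
    · change δ ⟨S, hS⟩ (c ⟨U, h⟩) = 1
      rw [hc, hδ, if_pos (Subtype.ext h2.symm)]
    · change δ ⟨S, hS⟩ (c ⟨U, h⟩) = 0
      rw [hc, hδ, if_neg]
      intro h3
      exact h2 (congrArg Subtype.val h3).symm
    · exact absurd (h2 ▸ hS) h
    · rw [map_zero]

theorem exists_derData (n d : ℕ) : ∃ (K : Type) (_ : Field K) (_ : CharZero K)
    (_ : IsAlgClosed K) (f : E K n), IsGeneric K n d f ∧ Nonempty (DerData K n d f) := by
  let A : Type := MvPolynomial (Idx n d) ℚ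
  let F : Type := FractionRing A
  let K : Type := AlgebraicClosure F
  have : CharZero F := charZero_of_injective_algebraMap (IsFractionRing.injective A F)
  have : CharZero K := charZero_of_injective_algebraMap (FaithfulSMul.algebraMap_injective F K)
  have h1 : Algebra.FormallyEtale A F := Algebra.FormallyEtale.of_isLocalization (nonZeroDivisors A)
  have h2 : Algebra.FormallyEtale F K := Algebra.FormallyEtale.of_isSeparable F K
  have h3 : Algebra.FormallyEtale A K := Algebra.FormallyEtale.comp A F K
  have h4 : IsScalarTower ℚ A K := IsScalarTower.of_algebraMap_eq' (Subsingleton.elim _ _)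
  have hinj : Function.Injective (algebraMap A K) := by
    rw [IsScalarTower.algebraMap_eq A F K]
    exact (FaithfulSMul.algebraMap_injective F K).comp (IsFractionRing.injective A F)
  exact ⟨K, inferInstance, inferInstance, inferInstance, exists_derData_aux K n d hinj⟩

end Pool.Agent.EA
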