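import Pool.Agent.EA.Prod

/-!
# EA: dimensions, duality, the ideal
-/

set_option autoImplicit false

namespace Pool.Agent.EA

open ExteriorAlgebra Module

variable {K : Type} [Field K] {n : ℕ}

theorem finite_E : Module.Finite K (E K n) := Module.Finite.of_basis (extBasis K n)

theorem finrank_ext (r : ℕ) : finrank K (⋀[K]^r (V K n)) = n.choose r := by
  have h := exteriorPower.finrank_eq (R := K) (M := V K n) r
  rw [h]
  congr 1
  exact Module.finrank_fin_fun K

theorem finite_ext (r : ℕ) : Module.Finite K (⋀[K]^r (V K n)) := by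
  have := finite_E (K := K) (n := n)
  infer_instance

/-- the pairing `(t, p) ↦ top coordinate of t p` -/
private noncomputable def pr (k l : ℕ) :
    (⋀[K]^k (V K n)) →ₗ[K] Module.Dual K (⋀[K]^l (V K n)) :=
  LinearMap.mk₂ K (fun t p => co K n Finset.univ ((t : E K n) * (p : E K n)))
    (fun a b c => by rw [Submodule.coe_add, add_mul, map_add])
    (fun c a b => by rw [Submodule.coe_smul, smul_mul_assoc, map_smul])
    (fun a b c => by rw [Submodule.coe_add, mul_add, map_add])
    (fun c a b => by rw [Submodule.coe_smul, mul_smul_comm, map_smul])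

private theorem pr_apply {k l : ℕ} (t : ⋀[K]^k (V K n)) (p : ⋀[K]^l (V K n)) :
    pr k l t p = co K n Finset.univ ((t : E K n) * (p : E K n)) := rfl

private theorem pr_injective {k l : ℕ} (hkl : k + l = n) :
    Function.Injective (pr (K := K) (n := n) k l) := by
  rw [injective_iff_map_eq_zero]
  intro t ht
  have h : (t : E K n) = 0 := by
    refine eq_zero_of_pair (k := l) (l := k) (by omega) t.2 ?_
    intro S hS
    have h1 : pr k l t ⟨x K n S, x_mem hS⟩ = 0 := by rw [ht]; rfl
    rw [pr_apply] at h1
    rw [graded_comm (x_mem hS) t.2, map_smul, h1, smul_zero]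
  exact Subtype.ext h

private theorem mul_eq_zero_of_top {k l : ℕ} (hkl : k + l = n) {t p : E K n}
    (ht : t ∈ ⋀[K]^k (V K n)) (hp : p ∈ ⋀[K]^l (V K n))
    (h : co K n Finset.univ (t * p) = 0) : t * p = 0 := by
  apply co_ext
  intro S
  rw [map_zero]
  by_cases hS : S = Finset.univ
  · rw [hS, h]
  · apply co_eq_zero (mul_mem ht hp)
    rw [hkl]
    intro h1
    apply hS
    rw [← Finset.card_eq_iff_eq_univ, h1, Fintype.card_fin]

private theorem finrank_comap {r : ℕ} {P : Submodule K (E K n)} (hP : P ≤ ⋀[K]^r (V K n)) :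
    finrank K (P.comap (⋀[K]^r (V K n)).subtype) = finrank K P :=
  (Submodule.comapSubtypeEquivOfLe hP).finrank_eq

private theorem finrank_map_pr {k l : ℕ} (hkl : k + l = n)
    (T : Submodule K (⋀[K]^k (V K n))) :
    finrank K (T.map (pr k l)) = finrank K T :=
  (Submodule.equivMapOfInjective (pr k l) (pr_injective hkl) T).symm.finrank_eq

/-- duality, first form -/
theorem perp_le {k l : ℕ} (hkl : k + l = n) {T P : Submodule K (E K n)}
    (hT : T ≤ ⋀[K]^k (V K n)) (hP : P ≤ ⋀[K]^l (V K n))
    (h : ∀ t ∈ T, ∀ p ∈ P, t * p = 0) : finrank K T + finrank K P ≤ n.choose k := by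
  have hfin := finite_ext (K := K) (n := n) l
  set T' := T.comap (⋀[K]^k (V K n)).subtype with hT'
  set P' := P.comap (⋀[K]^l (V K n)).subtype with hP'
  have h1 : T'.map (pr k l) ≤ P'.dualAnnihilator := by
    rintro _ ⟨t, ht, rfl⟩
    rw [Submodule.mem_dualAnnihilator]
    intro p hp
    rw [pr_apply, h t ht p hp, map_zero]
  have h2 := Submodule.finrank_mono h1
  rw [finrank_map_pr hkl, finrank_comap hT] at h2
  have h3 := Subspace.finrank_add_finrank_dualAnnihilator_eq P'
  rw [finrank_comap hP, finrank_ext] at h3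
  have h4 : n.choose l = n.choose k := by
    apply Nat.choose_symm_of_eq_add
    omega
  omega

/-- duality, second form: `T` contains everything in degree `k` that kills `P` -/
theorem perp_ge {k l : ℕ} (hkl : k + l = n) {T P : Submodule K (E K n)}
    (hP : P ≤ ⋀[K]^l (V K n))
    (h : ∀ t ∈ ⋀[K]^k (V K n), (∀ p ∈ P, t * p = 0) → t ∈ T) :
    n.choose k ≤ finrank K T + finrank K P := by
  have hfin := finite_ext (K := K) (n := n) l
  have hfink := finite_ext (K := K) (n := n) k
  have hfinE := finite_E (K := K) (n := n)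
  have h4 : n.choose l = n.choose k := by
    apply Nat.choose_symm_of_eq_add
    omega
  set P' := P.comap (⋀[K]^l (V K n)).subtype with hP'
  have hsurj : Function.Surjective (pr (K := K) (n := n) k l) := by
    rw [← LinearMap.range_eq_top]
    apply Submodule.eq_top_of_finrank_eq
    rw [Subspace.dual_finrank_eq, finrank_ext, LinearMap.finrank_range_of_inj (pr_injective hkl),
      finrank_ext, h4]
  set D := P'.dualAnnihilator.comap (pr k l) with hD
  have h5 : D.map (pr k l) = P'.dualAnnihilator := Submodule.map_comap_eq_of_surjective hsurj _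
  have h6 : finrank K D = finrank K P'.dualAnnihilator := by
    rw [← finrank_map_pr hkl D, h5]
  have h7 : D.map (⋀[K]^k (V K n)).subtype ≤ T := by
    rintro _ ⟨t, ht, rfl⟩
    refine h t t.2 ?_
    intro p hp
    have h8 := (Submodule.mem_dualAnnihilator _).1 ht ⟨p, hP hp⟩ hp
    rw [pr_apply] at h8
    exact mul_eq_zero_of_top hkl t.2 (hP hp) h8
  have h9 := Submodule.finrank_mono h7
  have h10 : finrank K (D.map (⋀[K]^k (V K n)).subtype) = finrank K D :=
    (Submodule.equivMapOfInjective _ (Submodule.injective_subtype _) D).symm.finrank_eq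
  rw [h10, h6] at h9
  have h3 := Subspace.finrank_add_finrank_dualAnnihilator_eq P'
  rw [finrank_comap hP, finrank_ext] at h3
  rw [← h4, ← h3, add_comm]
  exact Nat.add_le_add_right h9 _

/-- the image of degree `r` under multiplication by `f` on the right -/
private noncomputable def img (f : E K n) (r : ℕ) : Submodule K (E K n) :=
  (⋀[K]^r (V K n)).map (LinearMap.mulRight K f)

private theorem img_le {d r : ℕ} {f : E K n} (hf : f ∈ ⋀[K]^d (V K n)) :
    img f r ≤ ⋀[K]^(r + d) (V K n) := by
  rintro _ ⟨g, hg, rfl⟩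
  exact mul_mem hg hf

private theorem img_finrank (f : E K n) (r : ℕ) :
    finrank K (img f r) + finrank K (annPart K n f r) = n.choose r := by
  have hfin := finite_ext (K := K) (n := n) r
  have h1 := LinearMap.finrank_range_add_finrank_ker
    ((LinearMap.mulRight K f).domRestrict (⋀[K]^r (V K n)))
  rw [finrank_ext] at h1
  have h2 : LinearMap.range ((LinearMap.mulRight K f).domRestrict (⋀[K]^r (V K n))) =
      img f r := by
    unfold img
    rw [LinearMap.range_domRestrict]
  have h3 : finrank K (LinearMap.ker ((LinearMap.mulRight K f).domRestrict (⋀[K]^r (V K n)))) =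
      finrank K (annPart K n f r) := by
    have h4 : annPart K n f r = (LinearMap.ker ((LinearMap.mulRight K f).domRestrict
        (⋀[K]^r (V K n)))).map (⋀[K]^r (V K n)).subtype := by
      ext y
      constructor
      · rintro ⟨hy1, hy2⟩
        exact ⟨⟨y, hy1⟩, hy2, rfl⟩
      · rintro ⟨z, hz, rfl⟩
        exact ⟨z.2, hz⟩
    rw [h4]
    exact (Submodule.equivMapOfInjective _ (Submodule.injective_subtype _) _).finrank_eq
  rw [h2, h3] at h1
  exact h1

private theorem mem_ann_iff {f : E K n} {r : ℕ} {y : E K n} :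
    y ∈ annPart K n f r ↔ y ∈ ⋀[K]^r (V K n) ∧ y * f = 0 := Iff.rfl

/-- the annihilator in complementary degrees -/
theorem ann_dual {d r : ℕ} {f : E K n} (hf : f ∈ ⋀[K]^d (V K n)) (h : r + d ≤ n) :
    finrank K (annPart K n f r) + n.choose (r + d)
      = n.choose r + finrank K (annPart K n f (n - d - r)) := by
  have hle : img f (n - d - r) ≤ ⋀[K]^(n - r) (V K n) := by
    have := img_le (r := n - d - r) hf
    rwa [show n - d - r + d = n - r by omega] at this
  have h1 := perp_le (k := r) (l := n - r) (by omega) (T := annPart K n f r)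
    (P := img f (n - d - r)) inf_le_left hle (by
      rintro t ht _ ⟨g, hg, rfl⟩
      rw [mem_ann_iff] at ht
      rw [LinearMap.mulRight_apply, graded_comm hg hf, mul_smul_comm, ← mul_assoc, ht.2,
        zero_mul, smul_zero])
  have h2 := perp_ge (k := r) (l := n - r) (by omega) (T := annPart K n f r)
    (P := img f (n - d - r)) hle (by
      intro t ht hk
      rw [mem_ann_iff]
      refine ⟨ht, ?_⟩
      refine eq_zero_of_pair (k := n - d - r) (l := r + d) (by omega) (mul_mem ht hf) ?_
      intro S hS
      have h3 := hk (x K n S * f) ⟨x K n S, x_mem hS, rfl⟩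
      have h4 : x K n S * (t * f) = (-1 : K) ^ ((n - d - r) * r) • (t * (x K n S * f)) := by
        rw [← mul_assoc, graded_comm (x_mem hS) ht, smul_mul_assoc, mul_assoc]
      rw [h4, h3, smul_zero, map_zero])
  have h3 := img_finrank f (n - d - r)
  have h4 : n.choose (n - d - r) = n.choose (r + d) := by
    apply Nat.choose_symm_of_eq_add
    omega
  omega

theorem ann_top {d r : ℕ} {f : E K n} (hf : f ∈ ⋀[K]^d (V K n)) (h : n < r + d) :
    finrank K (annPart K n f r) = n.choose r := by
  have h1 : annPart K n f r = ⋀[K]^r (V K n) := by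
    ext y
    rw [mem_ann_iff]
    refine ⟨fun hy => hy.1, fun hy => ⟨hy, ?_⟩⟩
    apply co_ext
    intro S
    rw [map_zero]
    apply co_eq_zero (mul_mem hy hf)
    have := Finset.card_le_univ S
    rw [Fintype.card_fin] at this
    omega
  rw [h1]
  exact finrank_ext r

private theorem mul_twist {d : ℕ} {f : E K n} (hf : f ∈ ⋀[K]^d (V K n)) (a : E K n) :
    ∃ a' : E K n, a * f = f * a' := by
  refine ⟨∑ S, (co K n S a * (-1 : K) ^ (S.card * d)) • x K n S, ?_⟩
  conv_lhs => rw [sum_co a, Finset.sum_mul]
  rw [Finset.mul_sum]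
  refine Finset.sum_congr rfl fun S _ => ?_
  rw [smul_mul_assoc, graded_comm (x_mem rfl) hf, mul_smul_comm, smul_smul]

theorem ideal_le_ann [CharZero K] {d : ℕ} (hd : Odd d) {f : E K n} (hf : f ∈ ⋀[K]^d (V K n))
    (r : ℕ) : idealPart K n f r ≤ annPart K n f r := by
  have hff : f * f = 0 := by
    have h1 := graded_comm hf hf
    rw [Odd.neg_one_pow (hd.mul hd), neg_one_smul] at h1
    have h2 : (2 : K) • (f * f) = 0 := by
      rw [two_smul]
      nth_rewrite 1 [h1]
      exact neg_add_cancel _
    exact (smul_eq_zero.1 h2).resolve_left two_ne_zero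
  intro y hy
  obtain ⟨h1, h2⟩ := hy
  refine ⟨h1, ?_⟩
  change y * f = 0
  have h3 : y ∈ TwoSidedIdeal.span {f} := h2
  clear h1 h2
  induction h3 using TwoSidedIdeal.span_induction with
  | mem z hz =>
    rw [Set.mem_singleton_iff] at hz
    rw [hz, hff]
  | zero => exact zero_mul _
  | add a b _ _ ha hb => rw [add_mul, ha, hb, add_zero]
  | neg a _ ha => rw [neg_mul, ha, neg_zero]
  | left_absorb a b _ hb => rw [mul_assoc, hb, mul_zero]
  | right_absorb a b _ hb =>
    obtain ⟨a', ha'⟩ := mul_twist hf a
    rw [mul_assoc, ha', ← mul_assoc, hb, zero_mul]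

private theorem span_low {d : ℕ} {f : E K n} (hf : f ∈ ⋀[K]^d (V K n)) {y : E K n}
    (hy : y ∈ TwoSidedIdeal.span {f}) : ∀ S : Finset (Fin n), S.card < d → co K n S y = 0 := by
  induction hy using TwoSidedIdeal.span_induction with
  | mem z hz =>
    intro S hS
    rw [Set.mem_singleton_iff] at hz
    subst hz
    exact co_eq_zero hf (by omega)
  | zero => intro S _; exact map_zero _
  | add a b _ _ ha hb =>
    intro S hS
    rw [map_add, ha S hS, hb S hS, add_zero]
  | neg a _ ha =>
    intro S hS
    rw [map_neg, ha S hS, neg_zero]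
  | left_absorb a b _ hb =>
    intro S hS
    rw [co_mul]
    refine Finset.sum_eq_zero fun T _ => ?_
    rw [hb (S \ T) ((Finset.card_le_card Finset.sdiff_subset).trans_lt hS), mul_zero, mul_zero]
  | right_absorb a b _ hb =>
    intro S hS
    rw [co_mul]
    refine Finset.sum_eq_zero fun T hT => ?_
    rw [hb T ((Finset.card_le_card (Finset.mem_powerset.1 hT)).trans_lt hS), zero_mul, mul_zero]

theorem ideal_low {d r : ℕ} {f : E K n} (hf : f ∈ ⋀[K]^d (V K n)) (hr : r < d) :
    idealPart K n f r = ⊥ := by
  rw [Submodule.eq_bot_iff]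
  intro y hy
  obtain ⟨h1, h2⟩ := hy
  apply co_ext
  intro S
  rw [map_zero]
  by_cases hS : S.card = r
  · exact span_low hf h2 S (by omega)
  · exact co_eq_zero h1 hS

end Pool.Agent.EA
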