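import Pool.Agent.EA.Lead
import Pool.Agent.EA.Comb
import Pool.Agent.EA.Der
import Pool.Agent.EA.Dual

/-!
# EA: annihilators of a kernel element, the counting inequality
-/

set_option autoImplicit false

namespace Pool.Agent.EA

open ExteriorAlgebra Module

variable {K : Type} [Field K] {n : ℕ}

/-- `a ⋀^s` -/
noncomputable def mulImg (a : E K n) (s : ℕ) : Submodule K (E K n) :=
  (⋀[K]^s (V K n)).map (LinearMap.mulLeft K a)

/-- `{b ∈ ⋀^s : a b = 0}` -/
noncomputable def annK (a : E K n) (s : ℕ) : Submodule K (E K n) :=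
  ⋀[K]^s (V K n) ⊓ LinearMap.ker (LinearMap.mulLeft K a)

theorem mem_annK {a b : E K n} {s : ℕ} : b ∈ annK a s ↔ b ∈ ⋀[K]^s (V K n) ∧ a * b = 0 := by
  unfold annK
  rw [Submodule.mem_inf, LinearMap.mem_ker, LinearMap.mulLeft_apply]

theorem mem_mulImg {a y : E K n} {s : ℕ} :
    y ∈ mulImg a s ↔ ∃ g ∈ ⋀[K]^s (V K n), a * g = y := by
  unfold mulImg
  rw [Submodule.mem_map]
  rfl

theorem mulImg_le {a : E K n} {r s : ℕ} (ha : a ∈ ⋀[K]^r (V K n)) :
    mulImg a s ≤ ⋀[K]^(r + s) (V K n) := by
  intro y hy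
  obtain ⟨g, hg, rfl⟩ := mem_mulImg.mp hy
  exact mul_mem ha hg

theorem eq_sum_x {s : ℕ} {y : E K n} (hy : y ∈ ⋀[K]^s (V K n)) :
    y = ∑ S ∈ Finset.powersetCard s Finset.univ, co K n S y • x K n S := by
  conv_lhs => rw [sum_co y]
  symm
  apply Finset.sum_subset (Finset.subset_univ _)
  intro S _ hS
  rw [co_eq_zero hy, zero_smul]
  intro h
  exact hS (Finset.mem_powersetCard.mpr ⟨Finset.subset_univ _, h⟩)

theorem eq_zero_of_mul_x {k l : ℕ} (hkl : k + l = n) {y : E K n} (hy : y ∈ ⋀[K]^l (V K n))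
    (h : ∀ S : Finset (Fin n), S.card = k → y * x K n S = 0) : y = 0 := by
  apply eq_zero_of_pair hkl hy
  intro S hS
  rw [graded_comm (x_mem hS) hy, h S hS, smul_zero, map_zero]

/-- rank-nullity -/
theorem mulImg_add_annK (a : E K n) (s : ℕ) :
    finrank K (mulImg a s) + finrank K (annK a s) = n.choose s := by
  have h1 := LinearMap.finrank_range_add_finrank_ker
    ((LinearMap.mulLeft K a).domRestrict (⋀[K]^s (V K n)))
  rw [finrank_ext] at h1
  have h2 : LinearMap.range ((LinearMap.mulLeft K a).domRestrict (⋀[K]^s (V K n)))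
      = mulImg a s := by
    rw [LinearMap.range_domRestrict]
    rfl
  have h3 : finrank K (LinearMap.ker ((LinearMap.mulLeft K a).domRestrict (⋀[K]^s (V K n))))
      = finrank K (annK a s) := by
    rw [LinearMap.ker_domRestrict]
    have h4 : Submodule.comap (⋀[K]^s (V K n)).subtype (LinearMap.ker (LinearMap.mulLeft K a))
        = (annK a s).submoduleOf (⋀[K]^s (V K n)) := by
      ext y
      simp [Submodule.submoduleOf, annK]
    rw [h4]
    exact (Submodule.submoduleOfEquivOfLe inf_le_left).finrank_eq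
  rw [h2, h3] at h1
  exact h1

theorem choose_le_annK {r d : ℕ} (hn : n = 2 * r + d) {a : E K n}
    (ha : a ∈ ⋀[K]^r (V K n)) :
    n.choose r ≤ finrank K (annK a r) + finrank K (mulImg a d) := by
  apply perp_ge (k := r) (l := r + d) (by omega) (mulImg_le ha)
  intro t ht h
  refine mem_annK.mpr ⟨ht, ?_⟩
  have h1 : t * a = 0 := by
    apply eq_zero_of_mul_x (k := d) (l := r + r) (by omega) (mul_mem ht ha)
    intro S hS
    rw [mul_assoc]
    exact h _ (mem_mulImg.mpr ⟨_, x_mem hS, rfl⟩)
  rw [graded_comm ha ht, h1, smul_zero]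

theorem finrank_add_one_le {φ : E K n →ₗ[K] E K n} {T Q : Submodule K (E K n)}
    (hQ : Q ≤ T.map φ) {a : E K n} (haT : a ∈ T) (ha : a ≠ 0) (hφ : φ a = 0) :
    finrank K Q + 1 ≤ finrank K T := by
  have h1 := LinearMap.finrank_range_add_finrank_ker (φ.domRestrict T)
  rw [LinearMap.range_domRestrict] at h1
  have h2 := Submodule.finrank_mono hQ
  have h3 : 1 ≤ finrank K (LinearMap.ker (φ.domRestrict T)) := by
    rw [Nat.one_le_iff_ne_zero]
    intro h0
    rw [Submodule.finrank_eq_zero] at h0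
    have h4 : (⟨a, haT⟩ : T) ∈ LinearMap.ker (φ.domRestrict T) := by
      rw [LinearMap.mem_ker]
      exact hφ
    rw [h0, Submodule.mem_bot] at h4
    exact ha (congrArg Subtype.val h4)
  omega

variable {d : ℕ} {f : E K n} (D : DerData K n d f)

include D

theorem D_mul_f {a : E K n} (haf : a * f = 0) {S : Finset (Fin n)} (hS : S.card = d) :
    D.D S a * f = -(a * x K n S) := by
  have h := D.leib S a f
  rw [haf, map_zero, D.form S hS] at h
  exact eq_neg_of_add_eq_zero_left h.symm

/-- the span of `a` and its derivatives -/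
noncomputable def tan (a : E K n) : Submodule K (E K n) :=
  Submodule.span K (insert a ((fun S => D.D S a) '' {S : Finset (Fin n) | S.card = d}))

omit D in
theorem tan_def (D : DerData K n d f) (a : E K n) : tan D a =
    Submodule.span K (insert a ((fun S => D.D S a) '' {S : Finset (Fin n) | S.card = d})) := rfl

theorem mem_tan (a : E K n) : a ∈ tan D a :=
  Submodule.subset_span (Set.mem_insert _ _)

theorem D_mem_tan (a : E K n) {S : Finset (Fin n)} (hS : S.card = d) : D.D S a ∈ tan D a :=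
  Submodule.subset_span (Set.mem_insert_of_mem _ ⟨S, hS, rfl⟩)

theorem tan_le {a : E K n} {r : ℕ} (ha : a ∈ ⋀[K]^r (V K n)) :
    tan D a ≤ ⋀[K]^r (V K n) := by
  rw [tan_def, Submodule.span_le]
  rintro y (rfl | ⟨S, _, rfl⟩)
  · exact ha
  · exact D.deg S r a ha

theorem tan_mul {a z : E K n} (h0 : a * z = 0)
    (h : ∀ S : Finset (Fin n), S.card = d → D.D S a * z = 0) {t : E K n} (ht : t ∈ tan D a) :
    t * z = 0 := by
  have h1 : tan D a ≤ LinearMap.ker (LinearMap.mulRight K z) := by
    rw [tan_def, Submodule.span_le]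
    rintro y (rfl | ⟨S, hS, rfl⟩)
    · rw [SetLike.mem_coe, LinearMap.mem_ker, LinearMap.mulRight_apply]
      exact h0
    · rw [SetLike.mem_coe, LinearMap.mem_ker, LinearMap.mulRight_apply]
      exact h S hS
  have h2 := h1 ht
  rwa [LinearMap.mem_ker, LinearMap.mulRight_apply] at h2

/-- the tangent space is large -/
theorem finrank_tan {a : E K n} (ha0 : a ≠ 0) (haf : a * f = 0) :
    finrank K (mulImg a d) + 1 ≤ finrank K (tan D a) := by
  apply finrank_add_one_le (φ := LinearMap.mulRight K f) _ (mem_tan D a) ha0 haf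
  intro y hy
  obtain ⟨g, hg, rfl⟩ := mem_mulImg.mp hy
  rw [eq_sum_x hg, Finset.mul_sum]
  apply Submodule.sum_mem
  intro S hS
  rw [Finset.mem_powersetCard] at hS
  rw [mul_smul_comm]
  apply Submodule.smul_mem
  refine ⟨-(D.D S a), Submodule.neg_mem _ (D_mem_tan D a hS.2), ?_⟩
  rw [LinearMap.mulRight_apply, neg_mul, D_mul_f D haf hS.2, neg_neg]

theorem D_mul_mul {a b g : E K n} {r : ℕ} (ha : a ∈ ⋀[K]^r (V K n))
    (hb : b ∈ annK a r) (hg : g ∈ annK a d) (S : Finset (Fin n)) :
    D.D S a * (b * g) = 0 := by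
  obtain ⟨hb1, hb2⟩ := mem_annK.mp hb
  obtain ⟨_, hg2⟩ := mem_annK.mp hg
  have h := D.leib S a b
  rw [hb2, map_zero] at h
  have h1 : D.D S a * b = -(a * D.D S b) := eq_neg_of_add_eq_zero_left h.symm
  rw [← mul_assoc, h1, graded_comm ha (D.deg S r b hb1), neg_mul, smul_mul_assoc, mul_assoc,
    hg2, mul_zero, smul_zero, neg_zero]

/-- the counting inequality for a kernel element -/
theorem count {r : ℕ} (hn : n = 2 * r + d) (hr : 1 ≤ r) (hd : 1 ≤ d) {a : E K n}
    (ha : a ∈ ⋀[K]^r (V K n)) (ha0 : a ≠ 0) (haf : a * f = 0) :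
    (finrank K (mulImg a d) + 1) * finrank K (annK a r) * (n - r - 1).choose r
      ≤ finrank K (mulImg a d) * (2 * r).choose r * n.choose r := by
  set P : Submodule K (E K n) :=
    Submodule.span K {y | ∃ b ∈ annK a r, ∃ g ∈ annK a d, b * g = y} with hP
  have hPle : P ≤ ⋀[K]^(r + d) (V K n) := by
    rw [hP, Submodule.span_le]
    rintro y ⟨b, hb, g, hg, rfl⟩
    exact mul_mem (mem_annK.mp hb).1 (mem_annK.mp hg).1
  have hperp := perp_le (k := r) (l := r + d) (by omega) (tan_le D ha) hPle (by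
    intro t ht p hp
    have h1 : P ≤ LinearMap.ker (LinearMap.mulLeft K t) := by
      rw [hP, Submodule.span_le]
      rintro y ⟨b, hb, g, hg, rfl⟩
      rw [SetLike.mem_coe, LinearMap.mem_ker, LinearMap.mulLeft_apply]
      apply tan_mul D _ _ ht
      · rw [← mul_assoc, (mem_annK.mp hb).2, zero_mul]
      · intro S _
        exact D_mul_mul D ha hb hg S
    have h2 := h1 hp
    rwa [LinearMap.mem_ker, LinearMap.mulLeft_apply] at h2)
  have htan := finrank_tan D ha0 haf
  have h1 := choose_le_annK hn ha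
  have h2 := mulImg_add_annK a d
  have key := comb hn hr hd (lead (annK a r)) (lead (annK a d)) (lead P)
    (fun S hS => card_of_mem_lead hS inf_le_left)
    (fun S hS => card_of_mem_lead hS inf_le_left)
    (fun S hS T hT hd => lead_mul (X := annK a r) (Y := annK a d) (P := P) (fun y hy z hz =>
      Submodule.subset_span ⟨y, hy, z, hz, rfl⟩) hS hT hd)
    (finrank K (mulImg a d))
    (by rw [card_lead]; omega) (by rw [card_lead]; omega) (by rw [card_lead]; omega)
  rwa [card_lead] at key

end Pool.Agent.EA
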