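import Pool.Agent.EA.Ann

/-!
# EA: even degree kernel elements do not exist (`d ≥ r + 3`)
-/

set_option autoImplicit false

namespace Pool.Agent.EA

open ExteriorAlgebra Module

theorem even_core {K : Type} [Field K] [CharZero K] {n d r : ℕ} (hn : n = 2 * r + d)
    (hr : Even r) (hr1 : 1 ≤ r) (hd : r + 3 ≤ d) {f : E K n} (D : DerData K n d f) :
    annPart K n f r = ⊥ := by
  rw [Submodule.eq_bot_iff]
  intro a ha'
  by_contra ha0
  obtain ⟨ha, haf'⟩ := Submodule.mem_inf.mp ha'
  have haf : a * f = 0 := by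
    rwa [LinearMap.mem_ker, LinearMap.mulRight_apply] at haf'
  have hcomm : ∀ {s : ℕ} {b : E K n}, b ∈ ⋀[K]^s (V K n) → a * b = b * a := by
    intro s b hb
    rw [graded_comm ha hb, Even.neg_one_pow (hr.mul_right s), one_smul]
  -- a² = 0
  have haa : a * a = 0 := by
    apply eq_zero_of_mul_x (k := d) (l := r + r) (by omega) (mul_mem ha ha)
    intro S hS
    have h1 := D_mul_f D haf hS
    have h2 : a * (D.D S a * f) = 0 := by
      rw [← mul_assoc, hcomm (D.deg S r a ha), mul_assoc, haf, mul_zero]
    rw [h1, mul_neg, neg_eq_zero, ← mul_assoc] at h2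
    exact h2
  have hDa : ∀ S : Finset (Fin n), D.D S a * a = 0 := by
    intro S
    have h1 := D.leib S a a
    rw [haa, map_zero, hcomm (D.deg S r a ha), ← two_smul K (D.D S a * a)] at h1
    exact (smul_eq_zero.mp h1.symm).resolve_left two_ne_zero
  have hperp := perp_le (k := r) (l := r + d) (by omega) (tan_le D ha) (mulImg_le (s := d) ha) (by
    intro t ht p hp
    obtain ⟨g, hg, rfl⟩ := mem_mulImg.mp hp
    rw [← mul_assoc, tan_mul D haa (fun S _ => hDa S) ht, zero_mul])
  have htan := finrank_tan D ha0 haf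
  have hcount := count D hn hr1 (by omega) ha ha0 haf
  have h1 := choose_le_annK hn ha
  have h2 : 2 * (2 * r).choose r ≤ (n - r - 1).choose r := by
    have := two_choose_le hr1 hd
    rwa [show n - r - 1 = r + d - 1 by omega]
  have hpos : 0 < (2 * r).choose r := Nat.choose_pos (by omega)
  set ρ := finrank K (mulImg a d)
  set k := finrank K (annK a r)
  set N := n.choose r
  set c := (2 * r).choose r
  set e := (n - r - 1).choose r
  have h3 : N + 1 ≤ 2 * k := by omega
  have h4 : (ρ + 1) * (N + 1) * c ≤ ρ * c * N := by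
    calc (ρ + 1) * (N + 1) * c ≤ (ρ + 1) * (2 * k) * c := by gcongr
      _ = (ρ + 1) * k * (2 * c) := by ring
      _ ≤ (ρ + 1) * k * e := by gcongr
      _ ≤ ρ * c * N := hcount
  have h5 : ρ * c * N < (ρ + 1) * (N + 1) * c := by
    calc ρ * c * N = (ρ * N) * c := by ring
      _ < ((ρ + 1) * (N + 1)) * c := by
        apply Nat.mul_lt_mul_of_pos_right _ hpos
        nlinarith
      _ = (ρ + 1) * (N + 1) * c := by ring
  omega

end Pool.Agent.EA
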