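import Mathlib

/-!
# EA (MP_071b90_al): definitions

Annihilators of generic odd-degree forms in the exterior algebra.
-/

set_option autoImplicit false

namespace Pool.Agent.EA

open ExteriorAlgebra Module

section Defs

variable (K : Type) [Field K] (n : ℕ)

/-- `V_n = K^n` -/
abbrev V := Fin n → K

noncomputable instance : AddCommMonoid (V K n) := inferInstance
noncomputable instance : AddCommGroup (V K n) := inferInstance
noncomputable instance : Module K (V K n) := inferInstance

/-- `⋀ V_n` -/
abbrev E := ExteriorAlgebra K (V K n)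

/-! The next instances are the ones of Mathlib, named so that terms stay short. -/

noncomputable instance : Ring (E K n) := inferInstance
noncomputable instance : Semiring (E K n) := inferInstance
noncomputable instance : Algebra K (E K n) := inferInstance
noncomputable instance : AddCommMonoid (E K n) := inferInstance
noncomputable instance : Module K (E K n) := inferInstance

/-- the standard basis `x_1, …, x_n` of `V_n` -/
noncomputable def stdBasis : Basis (Fin n) K (V K n) := Pi.basisFun K (Fin n)

/-- Mathlib's basis of `⋀ V_n` formed by the `x_S = x_{s_1} ∧ ⋯ ∧ x_{s_k}`,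
`S = {s_1 < ⋯ < s_k}`. -/
noncomputable def extBasis : Basis (Finset (Fin n)) K (E K n) :=
  Module.Basis.ExteriorAlgebra (stdBasis K n)

/-- The basis element `x_S = x_{s_1} ∧ ⋯ ∧ x_{s_k}` for `S = {s_1 < ⋯ < s_k}`. -/
noncomputable def x (S : Finset (Fin n)) : E K n := extBasis K n S

/-- `f` is a generic form of degree `d`: `f = ∑_{|S| = d} c_S x_S` where the `c_S` are pairwise
distinct, lie outside `ℚ` and are algebraically independent over `ℚ`. -/
def IsGeneric [CharZero K] (d : ℕ) (f : E K n) : Prop :=
  ∃ c : {S : Finset (Fin n) // S.card = d} → K,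
    Function.Injective c ∧ (∀ S, c S ∉ Set.range (algebraMap ℚ K)) ∧ AlgebraicIndependent ℚ c ∧
      f = ∑ S, c S • x K n S

/-- the degree `r` part of the (two-sided) principal ideal `(f)` -/
noncomputable def idealPart (f : E K n) (r : ℕ) : Submodule K (E K n) :=
  ⋀[K]^r (V K n) ⊓ (TwoSidedIdeal.asIdeal (TwoSidedIdeal.span {f})).restrictScalars K

/-- the degree `r` part of `ann(f) = {g : g ∧ f = 0}` -/
noncomputable def annPart (f : E K n) (r : ℕ) : Submodule K (E K n) :=
  ⋀[K]^r (V K n) ⊓ LinearMap.ker (LinearMap.mulRight K f)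

/-- the coefficient of `t^r` in `Δ_{n,d}(t)`; here `⌈(n-d)/2⌉ ≤ r` is written `n - d ≤ 2 r` -/
def deltaCoeff (n d r : ℕ) : ℤ :=
  if n - d ≤ 2 * r ∧ r ≤ n then (n.choose r : ℤ) - (n.choose (r + d) : ℤ) else 0

/-- the coefficient of `t^r` in `τ_{n,d}(t)`, computed with the form `f` of degree `d` -/
noncomputable def tauCoeff (d : ℕ) (f : E K n) (r : ℕ) : ℤ :=
  (finrank K (annPart K n f r) : ℤ) - max (finrank K (idealPart K n f r) : ℤ) (deltaCoeff n d r)

/-- the coordinate functionals of `⋀ V_n` -/
noncomputable def co (S : Finset (Fin n)) : E K n →ₗ[K] K := (extBasis K n).coord S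

end Defs

/-- the sign in `x_S x_T = sg S T x_{S ∪ T}` (zero if `S` and `T` are not disjoint). -/
noncomputable def sg {n : ℕ} (S T : Finset (Fin n)) : ℤ :=
  open Classical in
  if h : Disjoint S T then
    ((Equiv.Perm.sign (Set.powersetCard.permOfDisjoint
      (s := (Set.powersetCard.ofCard rfl : Set.powersetCard (Fin n) S.card))
      (t := (Set.powersetCard.ofCard rfl : Set.powersetCard (Fin n) T.card)) h) : ℤˣ) : ℤ)
  else 0

/-- weight of a monomial: `∑_{i ∈ S} 2^i`. -/
def wt {n : ℕ} (S : Finset (Fin n)) : ℕ := ∑ i ∈ S, 2 ^ (i : ℕ)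

end Pool.Agent.EA
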