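import Pool.Agent.EA.Prod

/-!
# EA: the annihilator has the same Hilbert function for all generic forms
-/

set_option autoImplicit false

namespace Pool.Agent.EA

open ExteriorAlgebra Module

/-- the coordinates of `x_S f` as polynomials in the coefficients of `f` -/
private noncomputable def hsP (n d r : ℕ) (S : {S : Finset (Fin n) // S.card = r})
    (U : Finset (Fin n)) : MvPolynomial {S : Finset (Fin n) // S.card = d} ℚ :=
  open Classical in
  if h : (S : Finset (Fin n)) ⊆ U ∧ (U \ (S : Finset (Fin n))).card = d then
    MvPolynomial.C ((sg (S : Finset (Fin n)) (U \ (S : Finset (Fin n))) : ℤ) : ℚ) *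
      MvPolynomial.X ⟨U \ (S : Finset (Fin n)), h.2⟩
  else 0

private theorem hs_co_f {K : Type} [Field K] {n d : ℕ}
    (c : {S : Finset (Fin n) // S.card = d} → K) (T : Finset (Fin n)) :
    co K n T (∑ S, c S • x K n S) = if h : T.card = d then c ⟨T, h⟩ else 0 := by
  classical
  rw [map_sum]
  simp only [map_smul, co_x, smul_eq_mul, mul_ite, mul_one, mul_zero]
  split_ifs with h
  · rw [Finset.sum_eq_single (⟨T, h⟩ : {S : Finset (Fin n) // S.card = d})]
    · rw [if_pos rfl]
    · intro S _ hS
      rw [if_neg]
      rintro rfl
      exact hS rfl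
    · intro h'; exact absurd (Finset.mem_univ _) h'
  · refine Finset.sum_eq_zero fun S _ => ?_
    rw [if_neg]
    rintro rfl
    exact h S.2

private theorem hs_coord {K : Type} [Field K] [CharZero K] {n d r : ℕ}
    (c : {S : Finset (Fin n) // S.card = d} → K) (S : {S : Finset (Fin n) // S.card = r})
    (U : Finset (Fin n)) :
    co K n U (x K n S * ∑ T, c T • x K n T) = MvPolynomial.aeval c (hsP n d r S U) := by
  classical
  rw [co_mul]
  unfold hsP
  by_cases hSU : (S : Finset (Fin n)) ⊆ U
  · rw [Finset.sum_eq_single (S : Finset (Fin n))]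
    · rw [co_x, if_pos rfl, one_mul, hs_co_f]
      by_cases hd : (U \ (S : Finset (Fin n))).card = d
      · rw [dif_pos hd, dif_pos ⟨hSU, hd⟩, map_mul, MvPolynomial.aeval_X, MvPolynomial.aeval_C]
        simp
      · rw [dif_neg hd, dif_neg (fun h => hd h.2), map_zero, mul_zero]
    · intro T _ hT
      rw [co_x, if_neg (Ne.symm hT), zero_mul, mul_zero]
    · intro h; exact absurd (Finset.mem_powerset.mpr hSU) h
  · rw [dif_neg (fun h => hSU h.1), map_zero]
    refine Finset.sum_eq_zero fun T hT => ?_
    rw [co_x, if_neg, zero_mul, mul_zero]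
    rintro h
    exact hSU (h ▸ Finset.mem_powerset.mp hT)

private theorem hs_indep {K : Type} [Field K] [CharZero K] {n d r : ℕ} {f : E K n}
    (hf : IsGeneric K n d f) {κ : Type} (a : κ → {S : Finset (Fin n) // S.card = r}) :
    LinearIndependent K (fun k => x K n (a k) * f) ↔
      LinearIndependent (MvPolynomial {S : Finset (Fin n) // S.card = d} ℚ)
        (fun k => hsP n d r (a k)) := by
  obtain ⟨c, -, -, hc, rfl⟩ := hf
  let _ : Algebra (MvPolynomial {S : Finset (Fin n) // S.card = d} ℚ) K :=
    (MvPolynomial.aeval c : _ →ₐ[ℚ] K).toRingHom.toAlgebra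
  have : FaithfulSMul (MvPolynomial {S : Finset (Fin n) // S.card = d} ℚ) K :=
    (faithfulSMul_iff_algebraMap_injective _ _).mpr hc
  rw [← linearIndependent_algebraMap_comp_iff (R := MvPolynomial {S : Finset (Fin n) //
    S.card = d} ℚ) (S := K)]
  have h1 : (fun k => algebraMap (MvPolynomial {S : Finset (Fin n) // S.card = d} ℚ) K ∘
      hsP n d r (a k)) = (extBasis K n).equivFun.toLinearMap ∘
        (fun k => x K n (a k) * ∑ S, c S • x K n S) := by
    funext k
    funext U
    change MvPolynomial.aeval c (hsP n d r (a k) U) = _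
    rw [← hs_coord]
    rfl
  rw [h1, LinearMap.linearIndependent_iff _ (LinearEquiv.ker _)]

private theorem hs_rank {K : Type} [Field K] {n : ℕ} (r : ℕ) (f : E K n) :
    finrank K (annPart K n f r) + finrank K (Submodule.span K (Set.range
      (fun S : {S : Finset (Fin n) // S.card = r} => x K n S * f)))
      = Fintype.card {S : Finset (Fin n) // S.card = r} := by
  classical
  set v : {S : Finset (Fin n) // S.card = r} → E K n := fun S => x K n S with hv
  set φ := Fintype.linearCombination K v with hφ
  set T := Fintype.linearCombination K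
    (fun S : {S : Finset (Fin n) // S.card = r} => x K n S * f) with hT
  have hTφ : T = (LinearMap.mulRight K f).comp φ := by
    apply LinearMap.ext
    intro a
    rw [hT, LinearMap.comp_apply, LinearMap.mulRight_apply, hφ,
      Fintype.linearCombination_apply, Fintype.linearCombination_apply, Finset.sum_mul]
    refine Finset.sum_congr rfl fun S _ => ?_
    rw [smul_mul_assoc]
  have hinj : Function.Injective φ := by
    have h1 : LinearIndependent K v :=
      (extBasis K n).linearIndependent.comp _ Subtype.val_injective
    exact linearIndependent_iff_injective_fintypeLinearCombination.mp h1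
  have hran : LinearMap.range φ = ⋀[K]^r (V K n) := by
    rw [hφ, Fintype.range_linearCombination]
    apply le_antisymm
    · rw [Submodule.span_le]
      rintro _ ⟨S, rfl⟩
      exact x_mem S.2
    · intro y hy
      rw [sum_co y]
      refine Submodule.sum_mem _ fun S _ => ?_
      by_cases hS : S.card = r
      · exact Submodule.smul_mem _ _ (Submodule.subset_span ⟨⟨S, hS⟩, rfl⟩)
      · rw [co_eq_zero hy hS, zero_smul]; exact Submodule.zero_mem _
  have hker : Submodule.map φ (LinearMap.ker T) = annPart K n f r := by
    unfold annPart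
    rw [← hran]
    ext y
    constructor
    · rintro ⟨a, ha, rfl⟩
      refine ⟨⟨a, rfl⟩, ?_⟩
      rw [SetLike.mem_coe, LinearMap.mem_ker, hTφ] at ha
      exact ha
    · rintro ⟨⟨a, rfl⟩, ha⟩
      refine ⟨a, ?_, rfl⟩
      rw [SetLike.mem_coe, LinearMap.mem_ker, hTφ]
      exact ha
  have h1 := LinearMap.finrank_range_add_finrank_ker T
  rw [Module.finrank_fintype_fun_eq_card, Fintype.range_linearCombination] at h1
  rw [← hker, (Submodule.equivMapOfInjective φ hinj (LinearMap.ker T)).symm.finrank_eq, add_comm]
  exact h1

private theorem hs_le {K K' : Type} [Field K] [CharZero K] [Field K'] [CharZero K'] {n d : ℕ}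
    (r : ℕ) {f : E K n} {f' : E K' n} (hf : IsGeneric K n d f) (hf' : IsGeneric K' n d f') :
    finrank K (Submodule.span K (Set.range
      (fun S : {S : Finset (Fin n) // S.card = r} => x K n S * f))) ≤
    finrank K' (Submodule.span K' (Set.range
      (fun S : {S : Finset (Fin n) // S.card = r} => x K' n S * f'))) := by
  classical
  obtain ⟨κ, a, ha, hs, hi⟩ := exists_linearIndependent' K
    (fun S : {S : Finset (Fin n) // S.card = r} => x K n S * f)
  have : Finite κ := Finite.of_injective a ha
  have : Fintype κ := Fintype.ofFinite κ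
  have hi' : LinearIndependent K' (fun k => x K' n (a k) * f') := by
    rw [hs_indep hf']
    exact (hs_indep hf a).mp hi
  rw [← hs, finrank_span_eq_card hi, ← finrank_span_eq_card hi']
  have : Module.Finite K' (Submodule.span K' (Set.range
      (fun S : {S : Finset (Fin n) // S.card = r} => x K' n S * f'))) :=
    Module.Finite.span_of_finite K' (Set.finite_range _)
  apply Submodule.finrank_mono
  apply Submodule.span_mono
  rintro _ ⟨k, rfl⟩
  exact ⟨a k, rfl⟩

theorem finrank_ann_eq {K K' : Type} [Field K] [CharZero K] [Field K'] [CharZero K'] {n d : ℕ}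
    (r : ℕ) {f : E K n} {f' : E K' n} (hf : IsGeneric K n d f) (hf' : IsGeneric K' n d f') :
    finrank K (annPart K n f r) = finrank K' (annPart K' n f' r) := by
  have h1 := hs_rank r f
  have h2 := hs_rank r f'
  have h3 := hs_le r hf hf'
  have h4 := hs_le r hf' hf
  omega

end Pool.Agent.EA
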