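import Pool.Agent.EA.Ann

/-!
# EA: odd degree kernels have dimension at most one (`d ≥ 3 r`)
-/

set_option autoImplicit false

namespace Pool.Agent.EA

open ExteriorAlgebra Module

theorem term_ineq {r d i : ℕ} (hi : i < r) (h3 : 3 * r ≤ d) (hd : r + 3 ≤ d) :
    (2 * r - i) * (2 * r + d - i) ≤ (d - i) * (r + d - 1 - i) := by
  obtain ⟨j, rfl⟩ : ∃ j, r = i + 1 + j := ⟨r - (i + 1), by omega⟩
  obtain ⟨e, rfl⟩ : ∃ e, d = 3 * (i + 1 + j) + e := ⟨d - 3 * (i + 1 + j), by omega⟩
  rw [show 2 * (i + 1 + j) - i = i + 2 + 2 * j by omega,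
    show 2 * (i + 1 + j) + (3 * (i + 1 + j) + e) - i = 4 * i + 5 + 5 * j + e by omega,
    show 3 * (i + 1 + j) + e - i = 2 * i + 3 + 3 * j + e by omega,
    show i + 1 + j + (3 * (i + 1 + j) + e) - 1 - i = 3 * i + 3 + 4 * j + e by omega]
  have h1 : 1 ≤ 2 * i + j + 4 * e := by omega
  nlinarith [Nat.zero_le (i * j), Nat.zero_le (i * e), Nat.zero_le (j * e), Nat.zero_le (i * i),
    Nat.zero_le (j * j), Nat.zero_le (e * e)]

theorem choose_ineq {r d : ℕ} (h3 : 3 * r ≤ d) (hd : r + 3 ≤ d) :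
    (2 * r).choose r * (2 * r + d).choose r ≤ d.choose r * (r + d - 1).choose r := by
  have key : (2 * r).descFactorial r * (2 * r + d).descFactorial r
      ≤ d.descFactorial r * (r + d - 1).descFactorial r := by
    rw [Nat.descFactorial_eq_prod_range, Nat.descFactorial_eq_prod_range,
      Nat.descFactorial_eq_prod_range, Nat.descFactorial_eq_prod_range,
      ← Finset.prod_mul_distrib, ← Finset.prod_mul_distrib]
    exact Finset.prod_le_prod' fun i hi => term_ineq (Finset.mem_range.mp hi) h3 hd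
  rw [Nat.descFactorial_eq_factorial_mul_choose, Nat.descFactorial_eq_factorial_mul_choose,
    Nat.descFactorial_eq_factorial_mul_choose, Nat.descFactorial_eq_factorial_mul_choose] at key
  have hf : 0 < r.factorial * r.factorial := Nat.mul_pos r.factorial_pos r.factorial_pos
  apply Nat.le_of_mul_le_mul_left _ hf
  calc r.factorial * r.factorial * ((2 * r).choose r * (2 * r + d).choose r)
      = r.factorial * (2 * r).choose r * (r.factorial * (2 * r + d).choose r) := by ring
    _ ≤ r.factorial * d.choose r * (r.factorial * (r + d - 1).choose r) := key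
    _ = r.factorial * r.factorial * (d.choose r * (r + d - 1).choose r) := by ring

variable {K : Type} [Field K] {n d : ℕ} {f : E K n} (D : DerData K n d f)

include D

/-- products of kernel elements vanish -/
theorem ker_mul_ker {r : ℕ} (hn : n = 2 * r + d) (hf : f ∈ ⋀[K]^d (V K n)) {a a' : E K n}
    (ha : a ∈ ⋀[K]^r (V K n)) (haf : a * f = 0)
    (ha' : a' ∈ ⋀[K]^r (V K n)) (haf' : a' * f = 0) : a * a' = 0 := by
  apply eq_zero_of_mul_x (k := d) (l := r + r) (by omega) (mul_mem ha ha')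
  intro S hS
  have h1 := D_mul_f D haf hS
  have h2 : D.D S a * f * a' = 0 := by
    rw [mul_assoc, graded_comm hf ha', haf', smul_zero, mul_zero]
  rw [h1, neg_mul, neg_eq_zero, mul_assoc, graded_comm (x_mem hS) ha', mul_smul_comm] at h2
  rw [mul_assoc]
  exact (smul_eq_zero.mp h2).resolve_left (pow_ne_zero _ (neg_ne_zero.mpr one_ne_zero))

theorem D_mul_swap {a a' : E K n} (haa : a * a' = 0) (S : Finset (Fin n)) :
    D.D S a * a' = -(a * D.D S a') := by
  have h := D.leib S a a'
  rw [haa, map_zero] at h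
  exact eq_neg_of_add_eq_zero_left h.symm

/-- the annihilators of all kernel elements agree -/
theorem annK_le {r : ℕ} (hn : n = 2 * r + d) {a a' : E K n}
    (ha : a ∈ ⋀[K]^r (V K n)) (ha0 : a ≠ 0) (haf : a * f = 0)
    (ha' : a' ∈ ⋀[K]^r (V K n)) (haa : a * a' = 0)
    (hk : finrank K (annK a r) ≤ d.choose r) : annK a r ≤ annK a' r := by
  intro b hb
  obtain ⟨hb1, hb2⟩ := mem_annK.mp hb
  refine mem_annK.mpr ⟨hb1, ?_⟩
  by_contra hy
  have hy2 : a' * b ∈ ⋀[K]^(r + r) (V K n) := mul_mem ha' hb1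
  have h1 := card_le_mul (P := mulImg (a' * b) r) hy hy2
    (fun z hz => mem_mulImg.mpr ⟨z, hz, rfl⟩)
  have h2 := mulImg_add_annK (a' * b) r
  have h3 : tan D a ≤ annK (a' * b) r := by
    intro t ht
    have htr := tan_le D ha ht
    have h4 : t * (a' * b) = 0 := by
      apply tan_mul D _ _ ht
      · rw [← mul_assoc, haa, zero_mul]
      · intro S _
        rw [← mul_assoc, D_mul_swap D haa, neg_mul, graded_comm ha (D.deg S r a' ha'),
          smul_mul_assoc, mul_assoc, hb2, mul_zero, smul_zero, neg_zero]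
    refine mem_annK.mpr ⟨htr, ?_⟩
    rw [graded_comm hy2 htr, h4, smul_zero]
  have h5 := Submodule.finrank_mono h3
  have h6 := finrank_tan D ha0 haf
  have h7 := choose_le_annK hn ha
  rw [show n - (r + r) = d by omega] at h1
  omega

omit D in
theorem mulImg_le_mulImg {r : ℕ} (hn : n = 2 * r + d) {a a' : E K n}
    (ha : a ∈ ⋀[K]^r (V K n)) (ha' : a' ∈ ⋀[K]^r (V K n))
    (h : annK a r ≤ annK a' r) : mulImg a' d ≤ mulImg a d := by
  have h1 := perp_le (k := r) (l := r + d) (by omega) (T := annK a r)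
    (P := mulImg a d ⊔ mulImg a' d) inf_le_left (sup_le (mulImg_le ha) (mulImg_le ha')) (by
    intro t ht p hp
    obtain ⟨ht1, ht2⟩ := mem_annK.mp ht
    obtain ⟨_, ht3⟩ := mem_annK.mp (h ht)
    obtain ⟨y, hy, z, hz, rfl⟩ := Submodule.mem_sup.mp hp
    obtain ⟨g, _, rfl⟩ := mem_mulImg.mp hy
    obtain ⟨g', _, rfl⟩ := mem_mulImg.mp hz
    rw [mul_add, ← mul_assoc, ← mul_assoc, graded_comm ht1 ha, graded_comm ht1 ha', ht2, ht3,
      smul_zero, zero_mul, zero_mul, add_zero])
  have h2 := choose_le_annK hn ha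
  have h3 : mulImg a d = mulImg a d ⊔ mulImg a' d :=
    Submodule.eq_of_le_of_finrank_le le_sup_left (by omega)
  rw [h3]
  exact le_sup_right

/-- the linear map with `u a g * f = a * g` -/
noncomputable def uMap (a : E K n) : E K n →ₗ[K] E K n :=
  ∑ S ∈ Finset.powersetCard d Finset.univ, (co K n S).smulRight (-(D.D S a))

theorem uMap_apply (a g : E K n) : uMap D a g =
    ∑ S ∈ Finset.powersetCard d Finset.univ, co K n S g • (-(D.D S a)) := by
  unfold uMap
  rw [LinearMap.sum_apply]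
  rfl

theorem uMap_x (a : E K n) {S : Finset (Fin n)} (hS : S.card = d) :
    uMap D a (x K n S) = -(D.D S a) := by
  rw [uMap_apply, Finset.sum_eq_single S]
  · rw [co_x, if_pos rfl, one_smul]
  · intro T _ hT
    rw [co_x, if_neg (Ne.symm hT), zero_smul]
  · intro h
    exact absurd (Finset.mem_powersetCard.mpr ⟨Finset.subset_univ _, hS⟩) h

theorem uMap_mem {r : ℕ} {a : E K n} (ha : a ∈ ⋀[K]^r (V K n)) (g : E K n) :
    uMap D a g ∈ ⋀[K]^r (V K n) := by
  rw [uMap_apply]
  exact Submodule.sum_mem _ fun S _ =>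
    Submodule.smul_mem _ _ (Submodule.neg_mem _ (D.deg S r a ha))

theorem uMap_mul_f {a : E K n} (haf : a * f = 0) {g : E K n} (hg : g ∈ ⋀[K]^d (V K n)) :
    uMap D a g * f = a * g := by
  rw [uMap_apply, Finset.sum_mul]
  conv_rhs => rw [eq_sum_x hg, Finset.mul_sum]
  refine Finset.sum_congr rfl fun S hS => ?_
  rw [smul_mul_assoc, mul_smul_comm, neg_mul,
    D_mul_f D haf (Finset.mem_powersetCard.mp hS).2, neg_neg]

theorem uMap_swap {r : ℕ} (hr : Odd r) {a a' : E K n} (ha : a ∈ ⋀[K]^r (V K n))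
    (ha' : a' ∈ ⋀[K]^r (V K n)) (haa : a * a' = 0) (g : E K n) :
    a' * uMap D a g = a * uMap D a' g := by
  rw [uMap_apply, uMap_apply, Finset.mul_sum, Finset.mul_sum]
  refine Finset.sum_congr rfl fun S _ => ?_
  rw [mul_smul_comm, mul_smul_comm]
  congr 1
  have h1 := D_mul_swap D haa S
  rw [graded_comm (D.deg S r a ha) ha', Odd.neg_one_pow (hr.mul hr), neg_smul, one_smul,
    neg_inj] at h1
  rw [mul_neg, mul_neg, h1]

theorem odd_core [IsAlgClosed K] {r : ℕ} (hn : n = 2 * r + d)
    (hr : Odd r) (hd : r + 3 ≤ d)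
    (h3 : (2 * r).choose r * n.choose r ≤ (d.choose r + 1) * (r + d - 1).choose r)
    (hf : f ∈ ⋀[K]^d (V K n)) :
    finrank K (annPart K n f r) ≤ 1 := by
  by_contra hcon
  push Not at hcon
  have hr1 : 1 ≤ r := hr.pos
  have memW : ∀ {a : E K n}, a ∈ annPart K n f r ↔ a ∈ ⋀[K]^r (V K n) ∧ a * f = 0 := by
    intro a
    unfold annPart
    rw [Submodule.mem_inf, LinearMap.mem_ker, LinearMap.mulRight_apply]
  -- two independent elements
  obtain ⟨a, haW, ha0⟩ : ∃ a ∈ annPart K n f r, a ≠ 0 := by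
    apply Submodule.exists_mem_ne_zero_of_ne_bot
    intro h
    rw [h, finrank_bot] at hcon
    omega
  obtain ⟨a', haW', hspan⟩ : ∃ a' ∈ annPart K n f r, a' ∉ Submodule.span K {a} := by
    by_contra h
    push Not at h
    have h1 : annPart K n f r ≤ Submodule.span K {a} := h
    have h2 := Submodule.finrank_mono h1
    rw [finrank_span_singleton ha0] at h2
    omega
  obtain ⟨ha, haf⟩ := memW.mp haW
  obtain ⟨ha', haf'⟩ := memW.mp haW'
  have hmul : ∀ {b c : E K n}, b ∈ annPart K n f r → c ∈ annPart K n f r → b * c = 0 :=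
    fun hb hc => ker_mul_ker D hn hf (memW.mp hb).1 (memW.mp hb).2 (memW.mp hc).1 (memW.mp hc).2
  -- the bounds
  have hbound : ∀ {b : E K n}, b ∈ annPart K n f r → b ≠ 0 →
      finrank K (annK b r) ≤ d.choose r ∧ 2 * finrank K (annK b r) ≤ n.choose r := by
    intro b hb hb0
    have hcount := count D hn hr1 (by omega) (memW.mp hb).1 hb0 (memW.mp hb).2
    have h1 := two_choose_le hr1 hd
    have h2 := h3
    rw [show r + d - 1 = n - r - 1 by omega] at h1 h2
    have hpos : 0 < (2 * r).choose r := Nat.choose_pos (by omega)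
    have hposN : 0 < n.choose r := Nat.choose_pos (by omega)
    have hpose : 0 < (n - r - 1).choose r := Nat.choose_pos (by omega)
    set ρ := finrank K (mulImg b d)
    set k := finrank K (annK b r)
    set N := n.choose r
    set c := (2 * r).choose r
    set e := (n - r - 1).choose r
    have h4 : k * e < c * N := by
      have h5 : (ρ + 1) * (k * e) < (ρ + 1) * (c * N) := by
        calc (ρ + 1) * (k * e) = (ρ + 1) * k * e := by ring
          _ ≤ ρ * c * N := hcount
          _ = ρ * (c * N) := by ring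
          _ < (ρ + 1) * (c * N) := by
            apply Nat.mul_lt_mul_of_pos_right (Nat.lt_succ_self _) (Nat.mul_pos hpos hposN)
      exact lt_of_mul_lt_mul_left h5 (Nat.zero_le _)
    constructor
    · have h5 : k * e < (d.choose r + 1) * e := lt_of_lt_of_le h4 h2
      exact Nat.lt_succ_iff.mp (lt_of_mul_lt_mul_right h5 (Nat.zero_le _))
    · have h5 : (2 * k) * c < N * c := by
        calc (2 * k) * c = k * (2 * c) := by ring
          _ ≤ k * e := Nat.mul_le_mul_left _ h1
          _ < c * N := h4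
          _ = N * c := by ring
      exact (lt_of_mul_lt_mul_right h5 (Nat.zero_le _)).le
  have hle : ∀ {b c : E K n}, b ∈ annPart K n f r → b ≠ 0 → c ∈ annPart K n f r →
      annK b r ≤ annK c r := fun hb hb0 hc =>
    annK_le D hn (memW.mp hb).1 hb0 (memW.mp hb).2 (memW.mp hc).1 (hmul hb hc) (hbound hb hb0).1
  have hinc := mulImg_le_mulImg hn ha ha' (hle haW ha0 haW')
  -- the maps
  set Y : Submodule K (E K n) :=
    (⋀[K]^d (V K n)).map ((LinearMap.mulLeft K a).comp (uMap D a)) with hY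
  let p : ⋀[K]^d (V K n) →ₗ[K] Y :=
    (((LinearMap.mulLeft K a).comp (uMap D a)).domRestrict (⋀[K]^d (V K n))).codRestrict Y
      (fun g => ⟨g, g.2, rfl⟩)
  have hp : ∀ g : ⋀[K]^d (V K n), (p g : E K n) = a * uMap D a g := fun g => rfl
  have hpsurj : Function.Surjective p := by
    rintro ⟨y, g, hg, hgy⟩
    exact ⟨⟨g, hg⟩, Subtype.ext hgy⟩
  have hqmem : ∀ g : ⋀[K]^d (V K n), a * uMap D a' g ∈ Y := by
    intro g
    obtain ⟨g1, hg1, he⟩ := mem_mulImg.mp (hinc (mem_mulImg.mpr ⟨g, g.2, rfl⟩))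
    have h1 : uMap D a' g - uMap D a g1 ∈ annPart K n f r := by
      refine memW.mpr ⟨Submodule.sub_mem _ (uMap_mem D ha' _) (uMap_mem D ha _), ?_⟩
      rw [sub_mul, uMap_mul_f D haf' g.2, uMap_mul_f D haf hg1, he, sub_self]
    have h2 := hmul haW h1
    rw [mul_sub, sub_eq_zero] at h2
    rw [h2]
    exact ⟨g1, hg1, rfl⟩
  let q : ⋀[K]^d (V K n) →ₗ[K] Y :=
    (((LinearMap.mulLeft K a).comp (uMap D a')).domRestrict (⋀[K]^d (V K n))).codRestrict Y
      hqmem
  have hq : ∀ g : ⋀[K]^d (V K n), (q g : E K n) = a * uMap D a' g := fun g => rfl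
  obtain ⟨s, hs⟩ := p.exists_rightInverse_of_surjective (LinearMap.range_eq_top.mpr hpsurj)
  have hYne : Nontrivial Y := by
    rw [Submodule.nontrivial_iff_ne_bot]
    intro hbot
    have h1 : tan D a ≤ annK a r := by
      rw [tan_def, Submodule.span_le]
      rintro y (rfl | ⟨S, hS, rfl⟩)
      · exact mem_annK.mpr ⟨ha, hmul haW haW⟩
      · refine mem_annK.mpr ⟨D.deg S r a ha, ?_⟩
        have h2 : a * uMap D a (x K n S) ∈ Y := ⟨_, x_mem hS, rfl⟩
        rw [hbot, Submodule.mem_bot, uMap_x D a hS, mul_neg, neg_eq_zero] at h2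
        exact h2
    have h2 := Submodule.finrank_mono h1
    have h3 := finrank_tan D ha0 haf
    have h4 := choose_le_annK hn ha
    have h5 := (hbound haW ha0).2
    omega
  obtain ⟨μ, hμ⟩ := Module.End.exists_eigenvalue (q.comp s)
  obtain ⟨y, hy⟩ := hμ.exists_hasEigenvector
  have hy0 : y ≠ 0 := hy.2
  have hy1 : (q.comp s) y = μ • y := hy.apply_eq_smul
  set g := s y with hg
  have hpy : p g = y := by
    have := LinearMap.congr_fun hs y
    rwa [LinearMap.comp_apply] at this
  have e1 : a * uMap D a g = (y : E K n) := by rw [← hp, hpy]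
  have e2 : a * uMap D a' g = μ • (y : E K n) := by
    rw [← hq]
    have := congrArg Subtype.val hy1
    rwa [LinearMap.comp_apply] at this
  have e3 : (a' - μ • a) * uMap D a g = 0 := by
    rw [sub_mul, uMap_swap D hr ha ha' (hmul haW haW'), e2, smul_mul_assoc, e1, sub_self]
  have hc : a' - μ • a ∈ annPart K n f r :=
    Submodule.sub_mem _ haW' (Submodule.smul_mem _ _ haW)
  have hc0 : a' - μ • a ≠ 0 := by
    intro h
    apply hspan
    rw [sub_eq_zero] at h
    rw [h]
    exact Submodule.smul_mem _ _ (Submodule.mem_span_singleton_self a)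
  have e4 : uMap D a g ∈ annK (a' - μ • a) r := mem_annK.mpr ⟨uMap_mem D ha _, e3⟩
  have e5 := (mem_annK.mp (hle hc hc0 haW e4)).2
  rw [e1] at e5
  exact hy0 (Subtype.ext e5)

end Pool.Agent.EA
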