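import Pool.Agent.EA.Dual

/-!
# EA: skew forms have even rank
-/

set_option autoImplicit false

namespace Pool.Agent.EA

open ExteriorAlgebra Module

/-- the kernel of a skew form has even codimension -/
theorem PARskew_ker {K W : Type} [Field K] [CharZero K] [AddCommGroup W] [Module K W]
    [FiniteDimensional K W] (B : W →ₗ[K] W →ₗ[K] K) (h : ∀ x y, B x y = - B y x) :
    finrank K (LinearMap.ker B) % 2 = finrank K W % 2 := by
  obtain ⟨C, hC⟩ := (LinearMap.ker B).exists_isCompl
  have hfin : finrank K (LinearMap.ker B) + finrank K C = finrank K W :=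
    Submodule.finrank_add_eq_of_isCompl hC
  set m := finrank K C with hm
  let b : Basis (Fin m) K C := Module.finBasis K C
  let M : Matrix (Fin m) (Fin m) K := Matrix.of fun i j => B (b i : W) (b j : W)
  have hMt : M.transpose = - M := by
    ext i j
    rw [Matrix.transpose_apply, Matrix.neg_apply]
    exact h _ _
  have hdet : M.det ≠ 0 := by
    intro h0
    obtain ⟨v, hv, hMv⟩ := Matrix.exists_mulVec_eq_zero_iff.2 h0
    apply hv
    set c : C := ∑ j, v j • b j with hc
    have h1 : ∀ i, B (b i : W) (c : W) = 0 := by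
      intro i
      have h2 := congrFun hMv i
      rw [Matrix.mulVec, dotProduct, Pi.zero_apply] at h2
      rw [← h2, hc, Submodule.coe_sum, map_sum]
      refine Finset.sum_congr rfl fun j _ => ?_
      rw [Submodule.coe_smul, map_smul, smul_eq_mul, mul_comm]
      rfl
    have h3 : ∀ c' : C, B (c : W) (c' : W) = 0 := by
      intro c'
      rw [h, ← b.sum_repr c', Submodule.coe_sum, map_sum, LinearMap.sum_apply,
        Finset.sum_eq_zero, neg_zero]
      intro i _
      rw [Submodule.coe_smul, map_smul, LinearMap.smul_apply, h1, smul_zero]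
    have h4 : (c : W) ∈ LinearMap.ker B := by
      rw [LinearMap.mem_ker]
      ext w
      obtain ⟨k, hk, c', hc', rfl⟩ := Submodule.mem_sup.1
        (hC.sup_eq_top ▸ Submodule.mem_top : w ∈ LinearMap.ker B ⊔ C)
      have h5 : B (c : W) k = 0 := by
        rw [h, LinearMap.mem_ker.1 hk, LinearMap.zero_apply, neg_zero]
      rw [map_add, h5, h3 ⟨c', hc'⟩]
      simp
    have h6 : (c : W) = 0 := by
      have := Submodule.mem_inf.2 ⟨h4, c.2⟩
      rw [hC.inf_eq_bot] at this
      exact (Submodule.mem_bot K).1 this
    have h7 : c = 0 := Subtype.ext h6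
    ext j
    have h8 := congrArg (fun z => b.repr z j) h7
    simp only [hc, Basis.repr_sum_self, map_zero, Finsupp.coe_zero, Pi.zero_apply] at h8
    exact h8
  have h9 : M.det = (-1) ^ m * M.det := by
    conv_lhs => rw [← Matrix.det_transpose, hMt, Matrix.det_neg, Fintype.card_fin]
  have h10 : Even m := by
    by_contra hodd
    rw [Nat.not_even_iff_odd] at hodd
    rw [hodd.neg_one_pow] at h9
    have h11 : (2 : K) * M.det = 0 := by linear_combination h9
    exact hdet ((mul_eq_zero.1 h11).resolve_left two_ne_zero)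
  obtain ⟨t, ht⟩ := h10
  omega

theorem parity {K : Type} [Field K] [CharZero K] {n d r : ℕ} (hn : n = 2 * r + d) (hr : Odd r)
    {f : E K n} (hf : f ∈ ⋀[K]^d (V K n)) :
    finrank K (annPart K n f r) % 2 = n.choose r % 2 := by
  have : Module.Finite K (E K n) := Module.Finite.of_basis (extBasis K n)
  let B : (⋀[K]^r (V K n)) →ₗ[K] (⋀[K]^r (V K n)) →ₗ[K] K :=
    LinearMap.mk₂ K (fun b b' => co K n Finset.univ ((b : E K n) * ((b' : E K n) * f)))
      (by intro a b c; simp only [Submodule.coe_add, add_mul, map_add])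
      (by intro a b c; simp only [Submodule.coe_smul, smul_mul_assoc, map_smul])
      (by intro a b c; simp only [Submodule.coe_add, add_mul, mul_add, map_add])
      (by intro a b c; simp only [Submodule.coe_smul, smul_mul_assoc, mul_smul_comm, map_smul])
  have hB : ∀ b b' : (⋀[K]^r (V K n)), B b b' =
      co K n Finset.univ ((b : E K n) * ((b' : E K n) * f)) := fun b b' => rfl
  have hcomm : ∀ b b' : (⋀[K]^r (V K n)), (b : E K n) * ((b' : E K n) * f) =
      - ((b' : E K n) * ((b : E K n) * f)) := by
    intro b b'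
    rw [← mul_assoc, graded_comm b.2 b'.2, (hr.mul hr).neg_one_pow, neg_one_smul, neg_mul,
      mul_assoc]
  have hskew : ∀ b b', B b b' = - B b' b := by
    intro b b'
    rw [hB, hB, hcomm, map_neg]
  have hker : ∀ b : (⋀[K]^r (V K n)), b ∈ LinearMap.ker B ↔ (b : E K n) * f = 0 := by
    intro b
    rw [LinearMap.mem_ker]
    constructor
    · intro h
      apply eq_zero_of_pair (k := r) (l := r + d) (by omega) (mul_mem b.2 hf)
      intro S hS
      have h1 := LinearMap.congr_fun h (⟨x K n S, x_mem hS⟩ : (⋀[K]^r (V K n)))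
      rw [hB, hcomm, map_neg, LinearMap.zero_apply, neg_eq_zero] at h1
      exact h1
    · intro h
      apply LinearMap.ext
      intro b'
      rw [hB, hcomm, h, mul_zero, neg_zero, map_zero, LinearMap.zero_apply]
  have hmap : (LinearMap.ker B).map (⋀[K]^r (V K n)).subtype = annPart K n f r := by
    ext y
    rw [Submodule.mem_map, annPart, Submodule.mem_inf, LinearMap.mem_ker,
      LinearMap.mulRight_apply]
    constructor
    · rintro ⟨b, hb, rfl⟩
      exact ⟨b.2, (hker b).1 hb⟩
    · rintro ⟨h1, h2⟩
      exact ⟨⟨y, h1⟩, (hker _).2 h2, rfl⟩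
  rw [← hmap, Submodule.finrank_map_subtype_eq, PARskew_ker B hskew, finrank_ext]

end Pool.Agent.EA
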