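import Pool.Agent.EA.Prod

/-!
# EA: changing the number of variables and the degree
-/

set_option autoImplicit false

namespace Pool.Agent.EA

open ExteriorAlgebra Module

private theorem st_co_single_mul {K : Type} [Field K] {n : ℕ} {i : Fin n} {S : Finset (Fin n)}
    (hi : i ∉ S) (y : E K n) :
    co K n (insert i S) (x K n {i} * y) = ((sg {i} S : ℤ) : K) * co K n S y := by
  classical
  rw [co_mul, Finset.sum_eq_single {i}]
  · rw [co_x, if_pos rfl, one_mul]
    have : insert i S \ {i} = S := by
      rw [Finset.insert_sdiff_of_mem _ (Finset.mem_singleton_self i),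
        Finset.sdiff_singleton_eq_erase, Finset.erase_eq_of_notMem hi]
    rw [this]
  · intro T _ hT
    rw [co_x, if_neg (Ne.symm hT), zero_mul, mul_zero]
  · intro h
    exact absurd (Finset.mem_powerset.mpr
      (Finset.singleton_subset_iff.mpr (Finset.mem_insert_self i S))) h

private theorem st_co_single {K : Type} [Field K] {n : ℕ} {i : Fin n} {S : Finset (Fin n)}
    (hi : i ∉ S) {y : E K n} (h : x K n {i} * y = 0) : co K n S y = 0 := by
  have h1 := st_co_single_mul hi y
  rw [h, map_zero] at h1
  exact (mul_eq_zero.mp h1.symm).resolve_left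
    (sg_cast_ne_zero (Finset.disjoint_singleton_left.mpr hi))

/-- injectivity in degree `r + 1` implies injectivity in degree `r` -/
theorem lower {K : Type} [Field K] {n r : ℕ} {f : E K n} (hr : r + 1 ≤ n)
    (H : annPart K n f (r + 1) = ⊥) : annPart K n f r = ⊥ := by
  classical
  rw [Submodule.eq_bot_iff]
  intro b hb
  obtain ⟨hb1, hb2⟩ := Submodule.mem_inf.mp hb
  rw [LinearMap.mem_ker, LinearMap.mulRight_apply] at hb2
  have h1 : ∀ i : Fin n, x K n {i} * b = 0 := by
    intro i
    have : x K n {i} * b ∈ annPart K n f (r + 1) := by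
      refine Submodule.mem_inf.mpr ⟨?_, ?_⟩
      · rw [add_comm]
        exact mul_mem (x_mem (Finset.card_singleton i)) hb1
      · rw [LinearMap.mem_ker, LinearMap.mulRight_apply, mul_assoc, hb2, mul_zero]
    rw [H] at this
    exact (Submodule.mem_bot K).mp this
  apply co_ext
  intro S
  rw [map_zero]
  by_cases hS : S.card = r
  · obtain ⟨i, hi⟩ : ∃ i, i ∉ S := by
      by_contra hcon
      push Not at hcon
      have : S = Finset.univ := Finset.eq_univ_iff_forall.mpr hcon
      rw [this, Finset.card_univ, Fintype.card_fin] at hS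
      omega
    exact st_co_single hi (h1 i)
  · exact co_eq_zero hb1 hS

/-- the map of exterior algebras induced by an order embedding of the indices -/
private noncomputable def stIota (K : Type) [Field K] {m n : ℕ} (e : Fin m ↪o Fin n) :
    E K m →ₐ[K] E K n :=
  ExteriorAlgebra.map ((stdBasis K m).constr K (fun i => stdBasis K n (e i)))

private theorem stIota_x {K : Type} [Field K] {m n : ℕ} (e : Fin m ↪o Fin n)
    (S : Finset (Fin m)) : stIota K e (x K m S) = x K n (S.map e.toEmbedding) := by
  classical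
  unfold x extBasis
  rw [ExteriorAlgebra.basis_apply_ofCard (stdBasis K m) (s := S) rfl,
    ExteriorAlgebra.basis_apply_ofCard (stdBasis K n) (s := S.map e.toEmbedding)
      (n := S.card) (Finset.card_map _)]
  unfold ExteriorAlgebra.ιMulti_family stIota
  rw [ExteriorAlgebra.map_apply_ιMulti]
  congr 1
  funext i
  simp only [Function.comp_apply, Basis.constr_basis]
  congr 1
  rw [Set.powersetCard.ofFinEmbEquiv_symm_apply, Set.powersetCard.ofFinEmbEquiv_symm_apply]
  have h1 : (((Set.powersetCard.ofCard (Finset.card_map e.toEmbedding) :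
      Set.powersetCard (Fin n) S.card) : Finset (Fin n)).orderEmbOfFin
      (Set.powersetCard.ofCard (Finset.card_map e.toEmbedding) :
      Set.powersetCard (Fin n) S.card).prop) = ((((Set.powersetCard.ofCard rfl :
      Set.powersetCard (Fin m) S.card) : Finset (Fin m)).orderEmbOfFin
      (Set.powersetCard.ofCard rfl :
      Set.powersetCard (Fin m) S.card).prop).trans e) := by
    symm
    apply Finset.orderEmbOfFin_unique'
    intro k
    change e _ ∈ S.map e.toEmbedding
    exact Finset.mem_map_of_mem _ (Finset.orderEmbOfFin_mem _ _ k)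
  rw [h1]
  rfl

private theorem st_sg_map {m n : ℕ} (e : Fin m ↪o Fin n) (S T : Finset (Fin m)) :
    sg (S.map e.toEmbedding) (T.map e.toEmbedding) = sg S T := by
  classical
  have h1 := x_mul (K := ℚ) S T
  have h2 := congrArg (stIota ℚ e) h1
  rw [map_mul, stIota_x, stIota_x, x_mul, map_smul, stIota_x, ← Finset.map_union] at h2
  have h3 := congrArg (co ℚ n ((S ∪ T).map e.toEmbedding)) h2
  rw [map_smul, map_smul, co_x, if_pos rfl, smul_eq_mul, smul_eq_mul, mul_one, mul_one] at h3
  exact_mod_cast h3

private theorem stIota_eq {K : Type} [Field K] {m n : ℕ} (e : Fin m ↪o Fin n) (y : E K m) :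
    stIota K e y = ∑ T, co K m T y • x K n (T.map e.toEmbedding) := by
  conv_lhs => rw [sum_co y]
  rw [map_sum]
  exact Finset.sum_congr rfl fun T _ => by rw [map_smul, stIota_x]

private theorem st_co_iota {K : Type} [Field K] {m n : ℕ} (e : Fin m ↪o Fin n)
    (S : Finset (Fin m)) (y : E K m) :
    co K n (S.map e.toEmbedding) (stIota K e y) = co K m S y := by
  classical
  rw [stIota_eq, map_sum, Finset.sum_eq_single S]
  · rw [map_smul, co_x, if_pos rfl, smul_eq_mul, mul_one]
  · intro T _ hT
    rw [map_smul, co_x, if_neg, smul_zero]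
    intro h
    exact hT (Finset.map_injective _ h)
  · intro h; exact absurd (Finset.mem_univ _) h

private theorem st_iota_mem {K : Type} [Field K] {m n r : ℕ} (e : Fin m ↪o Fin n)
    {y : E K m} (hy : y ∈ ⋀[K]^r (V K m)) : stIota K e y ∈ ⋀[K]^r (V K n) := by
  rw [stIota_eq]
  refine Submodule.sum_mem _ fun T _ => ?_
  by_cases hT : T.card = r
  · exact Submodule.smul_mem _ _ (x_mem (by rw [Finset.card_map, hT]))
  · rw [co_eq_zero hy hT, zero_smul]; exact Submodule.zero_mem _

/-- restriction to the variables in the image of `e` -/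
private noncomputable def stPi (K : Type) [Field K] {m n : ℕ} (e : Fin m ↪o Fin n)
    (y : E K n) : E K m := ∑ T, co K n (T.map e.toEmbedding) y • x K m T

private theorem st_co_pi {K : Type} [Field K] {m n : ℕ} (e : Fin m ↪o Fin n)
    (T : Finset (Fin m)) (y : E K n) :
    co K m T (stPi K e y) = co K n (T.map e.toEmbedding) y := by
  classical
  unfold stPi
  rw [map_sum, Finset.sum_eq_single T]
  · rw [map_smul, co_x, if_pos rfl, smul_eq_mul, mul_one]
  · intro S _ hS
    rw [map_smul, co_x, if_neg hS, smul_zero]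
  · intro h; exact absurd (Finset.mem_univ _) h

private theorem st_pi_mul {K : Type} [Field K] {m n : ℕ} (e : Fin m ↪o Fin n)
    (a b : E K n) : stPi K e (a * b) = stPi K e a * stPi K e b := by
  classical
  apply co_ext
  intro U
  rw [st_co_pi, co_mul, co_mul]
  symm
  refine Finset.sum_bij (fun S _ => S.map e.toEmbedding) ?_ ?_ ?_ ?_
  · intro S hS
    rw [Finset.mem_powerset] at hS ⊢
    exact Finset.map_subset_map.mpr hS
  · intro S _ T _ h
    exact Finset.map_injective _ h
  · intro S hS
    rw [Finset.mem_powerset] at hS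
    obtain ⟨S', hS', rfl⟩ := Finset.subset_map_iff.mp hS
    exact ⟨S', Finset.mem_powerset.mpr hS', rfl⟩
  · intro S hS
    have h1 : U.map e.toEmbedding \ S.map e.toEmbedding = (U \ S).map e.toEmbedding := by
      ext i
      simp only [Finset.mem_sdiff, Finset.mem_map]
      constructor
      · rintro ⟨⟨a, ha, rfl⟩, h2⟩
        exact ⟨a, ⟨ha, fun h3 => h2 ⟨a, h3, rfl⟩⟩, rfl⟩
      · rintro ⟨a, ⟨ha, h2⟩, rfl⟩
        exact ⟨⟨a, ha, rfl⟩, fun ⟨b, hb, h3⟩ => h2 (e.injective h3 ▸ hb)⟩
    rw [h1, st_sg_map, st_co_pi, st_co_pi]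

private theorem st_pi_generic {K : Type} [Field K] [CharZero K] {m n d : ℕ}
    (e : Fin m ↪o Fin n) {f : E K n} (hf : IsGeneric K n d f) :
    IsGeneric K m d (stPi K e f) := by
  classical
  obtain ⟨c, hc1, hc2, hc3, rfl⟩ := hf
  let t : {S : Finset (Fin m) // S.card = d} → {S : Finset (Fin n) // S.card = d} :=
    fun S => ⟨S.1.map e.toEmbedding, by rw [Finset.card_map]; exact S.2⟩
  have ht : Function.Injective t := by
    intro S T h
    apply Subtype.ext
    exact Finset.map_injective _ (congrArg Subtype.val h)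
  refine ⟨c ∘ t, hc1.comp ht, fun S => hc2 _, hc3.comp t ht, ?_⟩
  apply co_ext
  intro T
  rw [st_co_pi, map_sum, map_sum]
  simp only [map_smul, co_x, smul_eq_mul, mul_ite, mul_one, mul_zero]
  by_cases hT : T.card = d
  · rw [Finset.sum_eq_single (t ⟨T, hT⟩), Finset.sum_eq_single (⟨T, hT⟩ :
      {S : Finset (Fin m) // S.card = d})]
    · rw [if_pos rfl, if_pos rfl]; rfl
    · intro S _ hS
      rw [if_neg]
      rintro rfl
      exact hS rfl
    · intro h'; exact absurd (Finset.mem_univ _) h'
    · intro S _ hS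
      rw [if_neg]
      intro h
      exact hS (Subtype.ext h)
    · intro h'; exact absurd (Finset.mem_univ _) h'
  · rw [Finset.sum_eq_zero, Finset.sum_eq_zero]
    · intro S _
      rw [if_neg]
      rintro rfl
      exact hT S.2
    · intro S _
      rw [if_neg]
      intro h
      apply hT
      rw [← Finset.card_map e.toEmbedding, ← h]
      exact S.2

private theorem st_pi_mem {K : Type} [Field K] {m n r : ℕ} (e : Fin m ↪o Fin n)
    {y : E K n} (hy : y ∈ ⋀[K]^r (V K n)) : stPi K e y ∈ ⋀[K]^r (V K m) := by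
  apply mem_of_co
  intro S hS
  rw [st_co_pi]
  exact co_eq_zero hy (by rw [Finset.card_map]; exact hS)

private theorem st_pi_zero {K : Type} [Field K] {m n : ℕ} (e : Fin m ↪o Fin n) :
    stPi K e (0 : E K n) = 0 := by
  apply co_ext
  intro S
  rw [st_co_pi, map_zero, map_zero]

/-- one more variable, same degree -/
theorem up {K : Type} [Field K] [CharZero K] {n d r : ℕ} {f : E K (n + 1)}
    (hf : IsGeneric K (n + 1) d f) (hr : r ≤ n)
    (H : ∀ g : E K n, IsGeneric K n d g → annPart K n g r = ⊥) :
    annPart K (n + 1) f r = ⊥ := by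
  classical
  rw [Submodule.eq_bot_iff]
  intro a ha
  obtain ⟨ha1, ha2⟩ := Submodule.mem_inf.mp ha
  rw [LinearMap.mem_ker, LinearMap.mulRight_apply] at ha2
  apply co_ext
  intro S
  rw [map_zero]
  by_cases hS : S.card = r
  · obtain ⟨j, hj⟩ : ∃ j, j ∉ S := by
      by_contra hcon
      push Not at hcon
      have : S = Finset.univ := Finset.eq_univ_iff_forall.mpr hcon
      rw [this, Finset.card_univ, Fintype.card_fin] at hS
      omega
    have h1 : stPi K (Fin.succAboveOrderEmb j) a ∈ annPart K n
        (stPi K (Fin.succAboveOrderEmb j) f) r := by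
      refine Submodule.mem_inf.mpr ⟨st_pi_mem _ ha1, ?_⟩
      rw [LinearMap.mem_ker, LinearMap.mulRight_apply, ← st_pi_mul, ha2, st_pi_zero]
    rw [H _ (st_pi_generic _ hf)] at h1
    have h2 := (Submodule.mem_bot K).mp h1
    have h3 : ∃ T : Finset (Fin n), T.map (Fin.succAboveOrderEmb j).toEmbedding = S := by
      refine ⟨Finset.univ.filter fun i => j.succAbove i ∈ S, ?_⟩
      ext i
      rw [Finset.mem_map]
      constructor
      · rintro ⟨k, hk, rfl⟩
        exact (Finset.mem_filter.mp hk).2
      · intro hi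
        obtain ⟨k, rfl⟩ := Fin.exists_succAbove_eq (x := i) (y := j)
          (fun h => hj (h ▸ hi))
        exact ⟨k, Finset.mem_filter.mpr ⟨Finset.mem_univ _, hi⟩, rfl⟩
    obtain ⟨T, rfl⟩ := h3
    rw [← st_co_pi, h2, map_zero]
  · exact co_eq_zero ha1 hS

/-- one variable less, degree smaller by one -/
theorem down {K : Type} [Field K] [CharZero K] {n d r : ℕ} {f : E K (n + 1)}
    (hf : IsGeneric K (n + 1) d f) (H : annPart K (n + 1) f (r + 1) = ⊥) :
    ∃ g : E K n, IsGeneric K n d g ∧ annPart K n g r = ⊥ := by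
  classical
  set e : Fin n ↪o Fin (n + 1) := Fin.succAboveOrderEmb 0 with he
  have hne : ∀ S : Finset (Fin n), (0 : Fin (n + 1)) ∉ S.map e.toEmbedding := by
    intro S h
    obtain ⟨k, _, hk⟩ := Finset.mem_map.mp h
    exact Fin.succAbove_ne 0 k hk
  refine ⟨stPi K e f, st_pi_generic e hf, ?_⟩
  rw [Submodule.eq_bot_iff]
  intro b hb
  obtain ⟨hb1, hb2⟩ := Submodule.mem_inf.mp hb
  rw [LinearMap.mem_ker, LinearMap.mulRight_apply] at hb2
  -- products with a monomial containing `0` vanish
  have h0 : ∀ U : Finset (Fin (n + 1)), (0 : Fin (n + 1)) ∈ U →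
      x K (n + 1) {0} * stIota K e b * x K (n + 1) U = 0 := by
    intro U hU
    rw [stIota_eq, Finset.mul_sum, Finset.sum_mul]
    refine Finset.sum_eq_zero fun T _ => ?_
    rw [mul_smul_comm, smul_mul_assoc, x_mul, smul_mul_assoc, x_mul,
      sg_of_not_disjoint (S := {0} ∪ T.map e.toEmbedding) (T := U)]
    · simp
    · intro hd
      exact Finset.disjoint_left.mp hd (Finset.mem_union_left _ (Finset.mem_singleton_self 0)) hU
  -- decomposition of `f`
  have h1 : f = stIota K e (stPi K e f) +
      ∑ U ∈ Finset.univ.filter (fun U : Finset (Fin (n + 1)) => (0 : Fin (n + 1)) ∈ U),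
        co K (n + 1) U f • x K (n + 1) U := by
    rw [stIota_eq]
    conv_lhs => rw [sum_co f, ← Finset.sum_filter_not_add_sum_filter Finset.univ
      (fun U : Finset (Fin (n + 1)) => (0 : Fin (n + 1)) ∈ U)]
    congr 1
    symm
    refine Finset.sum_bij (fun S _ => S.map e.toEmbedding) ?_ ?_ ?_ ?_
    · intro S _
      exact Finset.mem_filter.mpr ⟨Finset.mem_univ _, hne S⟩
    · intro S _ T _ h
      exact Finset.map_injective _ h
    · intro U hU
      have hU' := (Finset.mem_filter.mp hU).2
      refine ⟨Finset.univ.filter fun i => (0 : Fin (n + 1)).succAbove i ∈ U,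
        Finset.mem_univ _, ?_⟩
      ext i
      rw [Finset.mem_map]
      constructor
      · rintro ⟨k, hk, rfl⟩
        exact (Finset.mem_filter.mp hk).2
      · intro hi
        obtain ⟨k, rfl⟩ := Fin.exists_succAbove_eq (x := i) (y := 0)
          (fun h => hU' (h ▸ hi))
        exact ⟨k, Finset.mem_filter.mpr ⟨Finset.mem_univ _, hi⟩, rfl⟩
    · intro S _
      rw [st_co_pi]
  have h2 : x K (n + 1) {0} * stIota K e b ∈ annPart K (n + 1) f (r + 1) := by
    refine Submodule.mem_inf.mpr ⟨?_, ?_⟩
    · rw [add_comm r 1]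
      exact mul_mem (x_mem (Finset.card_singleton _)) (st_iota_mem e hb1)
    · rw [LinearMap.mem_ker, LinearMap.mulRight_apply, h1, mul_add, mul_assoc, ← map_mul, hb2,
        map_zero, mul_zero, zero_add, Finset.mul_sum]
      refine Finset.sum_eq_zero fun U hU => ?_
      rw [mul_smul_comm, h0 U (Finset.mem_filter.mp hU).2, smul_zero]
  rw [H] at h2
  have h3 := (Submodule.mem_bot K).mp h2
  apply co_ext
  intro S
  rw [map_zero, ← st_co_iota e]
  exact st_co_single (hne S) h3

end Pool.Agent.EA
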