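import Pool.Agent.EA.Core
import Pool.Agent.EA.Odd
import Pool.Agent.EA.HS
import Pool.Agent.EA.Step
import Pool.Agent.EA.Parity

/-!
# EA: the series `τ_{n,d}` for `n ≤ 3 d - 4`
-/

set_option autoImplicit false

namespace Pool.Agent.EA

open ExteriorAlgebra Module

variable {K : Type} [Field K] [CharZero K]

theorem generic_mem {n d : ℕ} {f : E K n} (hf : IsGeneric K n d f) : f ∈ ⋀[K]^d (V K n) := by
  obtain ⟨c, _, _, _, rfl⟩ := hf
  exact Submodule.sum_mem _ fun S _ => Submodule.smul_mem _ _ (x_mem S.2)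

theorem generic_co_ne {n d : ℕ} {f : E K n} (hf : IsGeneric K n d f) {S : Finset (Fin n)}
    (hS : S.card = d) : co K n S f ≠ 0 := by
  obtain ⟨c, _, h2, _, rfl⟩ := hf
  rw [map_sum, Finset.sum_eq_single ⟨S, hS⟩]
  · rw [map_smul, co_x, if_pos rfl, smul_eq_mul, mul_one]
    intro h0
    apply h2 ⟨S, hS⟩
    rw [h0]
    exact ⟨0, map_zero _⟩
  · intro T _ hT
    rw [map_smul, co_x, if_neg, smul_zero]
    intro h
    exact hT (Subtype.ext h)
  · intro h
    exact absurd (Finset.mem_univ _) h

theorem zero_degree {n d : ℕ} (hn : n = d) {f : E K n} (hf : IsGeneric K n d f) :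
    annPart K n f 0 = ⊥ := by
  rw [Submodule.eq_bot_iff]
  intro a ha'
  obtain ⟨ha, haf'⟩ := Submodule.mem_inf.mp ha'
  have haf : a * f = 0 := by
    rwa [LinearMap.mem_ker, LinearMap.mulRight_apply] at haf'
  have h1 : a = co K n ∅ a • x K n ∅ := by
    conv_lhs => rw [eq_sum_x ha, Finset.powersetCard_zero, Finset.sum_singleton]
  have h2 : co K n Finset.univ (a * f) = 0 := by rw [haf, map_zero]
  rw [h1, smul_mul_assoc, map_smul, top_pair, Finset.compl_empty, smul_eq_mul] at h2
  have h3 : ((sg (∅ : Finset (Fin n)) Finset.univ : ℤ) : K) ≠ 0 :=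
    sg_cast_ne_zero (Finset.disjoint_empty_left _)
  have h4 : co K n Finset.univ f ≠ 0 := generic_co_ne hf (by rw [Finset.card_univ,
    Fintype.card_fin, hn])
  have h5 : co K n ∅ a = 0 := (mul_eq_zero.mp h2).resolve_right (mul_ne_zero h3 h4)
  rw [h1, h5, zero_smul]

theorem ann_bot_transfer {K' : Type} [Field K'] [CharZero K'] {n d r : ℕ} {f : E K n}
    {f' : E K' n} (hf : IsGeneric K n d f) (hf' : IsGeneric K' n d f')
    (h : annPart K' n f' r = ⊥) : annPart K n f r = ⊥ := by
  have h1 := finrank_ann_eq r hf hf'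
  rw [h, finrank_bot] at h1
  exact Submodule.finrank_eq_zero.mp h1

theorem even_zero {n d r : ℕ} (hn : n = 2 * r + d) (hr : Even r) (hd : r + 3 ≤ d)
    {f : E K n} (hf : IsGeneric K n d f) : annPart K n f r = ⊥ := by
  rcases Nat.eq_zero_or_pos r with h0 | h0
  · subst h0
    exact zero_degree (by omega) hf
  · obtain ⟨K', _, _, _, f', hf', ⟨D⟩⟩ := exists_derData n d
    exact ann_bot_transfer hf hf' (even_core hn hr h0 hd D)

omit [CharZero K] in
theorem lower_all {n r : ℕ} {f : E K n} (hr : r ≤ n) (H : annPart K n f r = ⊥) :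
    ∀ s, s ≤ r → annPart K n f s = ⊥ := by
  intro s hs
  obtain ⟨k, rfl⟩ : ∃ k, r = s + k := ⟨r - s, by omega⟩
  induction k with
  | zero => exact H
  | succ k ih => exact ih (by omega) (lower (by omega) H) (by omega)

theorem vanish {n d m s : ℕ} (hd : Odd d) (hn : n = d + m) (hm : m + 4 ≤ 2 * d)
    (hs : 2 * s < m ∨ (2 * s = m ∧ Even s)) {f : E K n} (hf : IsGeneric K n d f) :
    annPart K n f s = ⊥ := by
  obtain ⟨t, rfl⟩ := hd
  have hev : ∀ q : ℕ, Even (2 * q) := fun q => even_two_mul q
  obtain ⟨q, hq⟩ : ∃ q, m = 4 * q ∨ m = 4 * q + 1 ∨ m = 4 * q + 2 ∨ m = 4 * q + 3 :=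
    ⟨m / 4, by omega⟩
  rcases hq with rfl | rfl | rfl | rfl
  · apply lower_all (r := 2 * q) (by omega) _ s (by omega)
    exact even_zero (by omega) (hev q) (by omega) hf
  · obtain ⟨n', rfl⟩ : ∃ n', n = n' + 1 := ⟨n - 1, by omega⟩
    apply lower_all (r := 2 * q) (by omega) _ s (by omega)
    exact up hf (by omega) fun g hg => even_zero (by omega) (hev q) (by omega) hg
  · obtain ⟨n', rfl⟩ : ∃ n', n = n' + 1 + 1 := ⟨n - 2, by omega⟩
    apply lower_all (r := 2 * q) (by omega) _ s
    · rcases hs with h | ⟨h, h'⟩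
      · omega
      · obtain ⟨k, rfl⟩ := h'
        omega
    · exact up hf (by omega) fun g hg => up hg (by omega) fun g' hg' =>
        even_zero (by omega) (hev q) (by omega) hg'
  · apply lower_all (r := 2 * q + 1) (by omega) _ s (by omega)
    obtain ⟨K', _, _, _, F, hF, _⟩ := exists_derData (n + 1) (2 * t + 1)
    have h1 : annPart K' (n + 1) F (2 * q + 1 + 1) = ⊥ :=
      even_zero (by omega) (by rw [show 2 * q + 1 + 1 = 2 * (q + 1) by ring]; exact hev _)
        (by omega) hF
    obtain ⟨g, hg, h2⟩ := down hF h1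
    exact ann_bot_transfer hf hg h2

theorem odd_le_one {n d r : ℕ} (hn : n = 2 * r + d) (hr : Odd r) (hd : r + 3 ≤ d)
    (h3 : (2 * r).choose r * n.choose r ≤ (d.choose r + 1) * (r + d - 1).choose r)
    {f : E K n} (hf : IsGeneric K n d f) : finrank K (annPart K n f r) ≤ 1 := by
  obtain ⟨K', _, _, _, f', hf', ⟨D⟩⟩ := exists_derData n d
  rw [finrank_ann_eq r hf hf']
  exact odd_core D hn hr hd h3 (generic_mem hf')

theorem tau_off {n d : ℕ} (hd : Odd d) (hdn : d ≤ n) (hn : n + 4 ≤ 3 * d) {f : E K n}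
    (hf : IsGeneric K n d f) {r : ℕ} (hr : 2 * r ≠ n - d) : tauCoeff K n d f r = 0 := by
  have hmem := generic_mem hf
  have hle := Submodule.finrank_mono (ideal_le_ann hd hmem r)
  unfold tauCoeff deltaCoeff
  by_cases hrn : r ≤ n
  · rcases lt_or_gt_of_ne hr with h | h
    · have h1 : annPart K n f r = ⊥ :=
        vanish hd (m := n - d) (by omega) (by omega) (Or.inl h) hf
      rw [h1, finrank_bot] at hle ⊢
      rw [if_neg (by omega), Nat.le_zero.mp hle]
      simp
    · rw [if_pos ⟨by omega, hrn⟩]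
      by_cases hrd : r + d ≤ n
      · have h1 := ann_dual hmem hrd
        have h2 : annPart K n f (n - d - r) = ⊥ :=
          vanish hd (m := n - d) (by omega) (by omega) (Or.inl (by omega)) hf
        rw [h2, finrank_bot, add_zero] at h1
        have h3 : (finrank K (annPart K n f r) : ℤ) = (n.choose r : ℤ) - (n.choose (r + d) : ℤ) := by
          have := congrArg (fun k : ℕ => (k : ℤ)) h1
          push_cast at this
          linarith
        rw [← h3, max_eq_right (by exact_mod_cast hle), sub_self]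
      · have h1 := ann_top hmem (r := r) (by omega)
        rw [Nat.choose_eq_zero_of_lt (show n < r + d by omega), ← h1, Nat.cast_zero, sub_zero,
          max_eq_right (by exact_mod_cast hle), sub_self]
  · have h1 : finrank K (annPart K n f r) = 0 := by
      have h2 : finrank K (annPart K n f r) ≤ finrank K (⋀[K]^r (V K n)) :=
        Submodule.finrank_mono inf_le_left
      rw [finrank_ext, Nat.choose_eq_zero_of_lt (by omega)] at h2
      omega
    rw [h1] at hle ⊢
    rw [if_neg (by omega), Nat.le_zero.mp hle]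
    simp

theorem tau_mid {n d : ℕ} (hdn : d ≤ n) (hn : n + 4 ≤ 3 * d) {f : E K n}
    (hf : IsGeneric K n d f) {r : ℕ} (hr : 2 * r = n - d) :
    tauCoeff K n d f r = finrank K (annPart K n f r) := by
  have hmem := generic_mem hf
  have h1 : idealPart K n f r = ⊥ := ideal_low hmem (by omega)
  unfold tauCoeff deltaCoeff
  rw [h1, finrank_bot, if_pos ⟨by omega, by omega⟩, ← Nat.choose_symm (show r ≤ n by omega),
    show n - r = r + d by omega]
  simp

theorem main {n d : ℕ} (hd : Odd d) (hdn : d ≤ n) (hn : n + 4 ≤ 3 * d)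
    {f : E K n} (hf : IsGeneric K n d f) :
    (∀ r, 2 * r ≠ n - d → tauCoeff K n d f r = 0) ∧
    (∀ r, 2 * r = n - d → Even r → tauCoeff K n d f r = 0) ∧
    (∀ r, 2 * r = n - d → Odd r →
      0 ≤ tauCoeff K n d f r ∧ tauCoeff K n d f r % 2 = (n.choose r : ℤ) % 2 ∧
      (3 < d → (3 * n ≤ 5 * d ∨ (r + 3 ≤ d ∧
        (2 * r).choose r * n.choose r ≤ (d.choose r + 1) * (r + d - 1).choose r)) →
        tauCoeff K n d f r = (n.choose r : ℤ) % 2)) := by
  refine ⟨fun r hr => tau_off hd hdn hn hf hr, fun r hr hre => ?_, fun r hr hro => ?_⟩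
  · rw [tau_mid hdn hn hf hr, vanish hd (m := n - d) (by omega) (by omega) (Or.inr ⟨hr, hre⟩) hf,
      finrank_bot, Nat.cast_zero]
  · have hpar := parity (show n = 2 * r + d by omega) hro (generic_mem hf)
    have hparz : ((finrank K (annPart K n f r) : ℕ) : ℤ) % 2 = (n.choose r : ℤ) % 2 := by
      exact_mod_cast hpar
    rw [tau_mid hdn hn hf hr]
    refine ⟨Int.natCast_nonneg _, hparz, fun h3 hc => ?_⟩
    have hrd : r + 3 ≤ d := by
      rcases hc with hc | hc
      · omega
      · exact hc.1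
    have hle : finrank K (annPart K n f r) ≤ 1 := by
      apply odd_le_one (by omega) hro hrd _ hf
      rcases hc with hc | hc
      · have h4 := choose_ineq (r := r) (d := d) (by omega) hrd
        rw [show 2 * r + d = n by omega] at h4
        exact h4.trans (Nat.mul_le_mul_right _ (Nat.le_succ _))
      · exact hc.2
    have h5 : ((finrank K (annPart K n f r) : ℕ) : ℤ) % 2 = finrank K (annPart K n f r) := by
      omega
    rw [← hparz, h5]

end Pool.Agent.EA
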