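import Mathlib

/-!
# EA: the expander inequality for Kneser graphs
-/

set_option autoImplicit false

namespace Pool.Agent.EA

/-- number of pairs of disjoint sets -/
def pairs {n : ℕ} (B C : Finset (Finset (Fin n))) : ℕ :=
  ((B ×ˢ C).filter fun p => Disjoint p.1 p.2).card

namespace Kneser

variable {n : ℕ}

/-- The up operator. -/
def Up (φ : Finset (Fin n) → ℝ) (T : Finset (Fin n)) : ℝ := ∑ x ∈ T, φ (T.erase x)

/-- The down operator. -/
def Dn (φ : Finset (Fin n) → ℝ) (S : Finset (Fin n)) : ℝ := ∑ x ∈ Sᶜ, φ (insert x S)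

/-- `φ` lives on level `i`. -/
def Lvl (i : ℕ) (φ : Finset (Fin n) → ℝ) : Prop := ∀ S, S.card ≠ i → φ S = 0

theorem adj (φ ψ : Finset (Fin n) → ℝ) : ∑ T, Up φ T * ψ T = ∑ S, φ S * Dn ψ S := by
  unfold Up Dn
  simp only [Finset.sum_mul, Finset.mul_sum]
  rw [Finset.sum_comm' (s := Finset.univ) (t := fun T : Finset (Fin n) => T)
    (t' := (Finset.univ : Finset (Fin n)))
    (s' := fun x => Finset.univ.filter fun T : Finset (Fin n) => x ∈ T) (by simp)]
  rw [Finset.sum_comm' (s := Finset.univ) (t := fun S : Finset (Fin n) => Sᶜ)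
    (t' := (Finset.univ : Finset (Fin n)))
    (s' := fun x => Finset.univ.filter fun T : Finset (Fin n) => x ∉ T) (by simp)]
  refine Finset.sum_congr rfl fun x _ => ?_
  refine Finset.sum_bij' (fun T _ => T.erase x) (fun S _ => insert x S) ?_ ?_ ?_ ?_ ?_
  · intro T _
    simp
  · intro T _
    simp
  · intro T hT
    exact Finset.insert_erase (Finset.mem_filter.1 hT).2
  · intro S hS
    exact Finset.erase_insert (Finset.mem_filter.1 hS).2
  · intro T hT
    rw [Finset.insert_erase (Finset.mem_filter.1 hT).2]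

theorem comm (φ : Finset (Fin n) → ℝ) (S : Finset (Fin n)) :
    Dn (Up φ) S = Up (Dn φ) S + ((n : ℝ) - 2 * S.card) * φ S := by
  have h1 : Dn (Up φ) S = ((n : ℝ) - S.card) * φ S
      + ∑ x ∈ Sᶜ, ∑ y ∈ S, φ ((insert x S).erase y) := by
    unfold Dn Up
    have : ∀ x ∈ Sᶜ, ∑ y ∈ insert x S, φ ((insert x S).erase y)
        = φ S + ∑ y ∈ S, φ ((insert x S).erase y) := by
      intro x hx
      rw [Finset.mem_compl] at hx
      rw [Finset.sum_insert hx, Finset.erase_insert hx]
    rw [Finset.sum_congr rfl this, Finset.sum_add_distrib, Finset.sum_const, Finset.card_compl,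
      Fintype.card_fin, nsmul_eq_mul, Nat.cast_sub (by simpa using Finset.card_le_univ S)]
  have h2 : Up (Dn φ) S = (S.card : ℝ) * φ S
      + ∑ x ∈ Sᶜ, ∑ y ∈ S, φ ((insert x S).erase y) := by
    unfold Dn Up
    have : ∀ y ∈ S, ∑ x ∈ (S.erase y)ᶜ, φ (insert x (S.erase y))
        = φ S + ∑ x ∈ Sᶜ, φ ((insert x S).erase y) := by
      intro y hy
      have hc : (S.erase y)ᶜ = insert y Sᶜ := Finset.compl_erase
      rw [hc, Finset.sum_insert (by simpa using hy), Finset.insert_erase hy]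
      congr 1
      refine Finset.sum_congr rfl fun x hx => ?_
      rw [Finset.mem_compl] at hx
      have hxy : x ≠ y := fun h => hx (h ▸ hy)
      rw [Finset.erase_insert_of_ne hxy]
    rw [Finset.sum_congr rfl this, Finset.sum_add_distrib, Finset.sum_const, nsmul_eq_mul,
      Finset.sum_comm]
  rw [h1, h2]
  ring

theorem Lvl.up {i : ℕ} {φ : Finset (Fin n) → ℝ} (h : Lvl i φ) : Lvl (i + 1) (Up φ) := by
  intro T hT
  unfold Up
  refine Finset.sum_eq_zero fun x hx => h _ ?_
  rw [Finset.card_erase_of_mem hx]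
  have : 0 < T.card := Finset.card_pos.2 ⟨x, hx⟩
  omega

theorem Lvl.dn {i : ℕ} {φ : Finset (Fin n) → ℝ} (h : Lvl (i + 1) φ) : Lvl i (Dn φ) := by
  intro S hS
  unfold Dn
  refine Finset.sum_eq_zero fun x hx => h _ ?_
  rw [Finset.mem_compl] at hx
  rw [Finset.card_insert_of_notMem hx]
  omega

theorem sum_dn {i : ℕ} {φ : Finset (Fin n) → ℝ} (h : Lvl i φ) (h0 : ∑ S, φ S = 0) :
    ∑ S, Dn φ S = 0 := by
  have h1 := adj (fun _ => (1 : ℝ)) φ
  simp only [one_mul] at h1
  rw [← h1]
  have h2 : ∀ T : Finset (Fin n), Up (fun _ => (1 : ℝ)) T * φ T = i * φ T := by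
    intro T
    by_cases hT : T.card = i
    · unfold Up
      simp [hT]
    · rw [h T hT]
      simp
  rw [Finset.sum_congr rfl fun T _ => h2 T, ← Finset.mul_sum, h0, mul_zero]

theorem norm_up {i : ℕ} {φ : Finset (Fin n) → ℝ} (h : Lvl i φ) :
    ∑ T, Up φ T ^ 2 = ∑ S, Dn φ S ^ 2 + ((n : ℝ) - 2 * i) * ∑ S, φ S ^ 2 := by
  have h1 := adj φ (Up φ)
  have h2 := adj (Dn φ) φ
  have h3 : ∀ S, φ S * Dn (Up φ) S = Up (Dn φ) S * φ S + ((n : ℝ) - 2 * i) * φ S ^ 2 := by
    intro S
    rw [comm]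
    by_cases hS : S.card = i
    · rw [hS]
      ring
    · rw [h S hS]
      ring
  calc ∑ T, Up φ T ^ 2 = ∑ T, Up φ T * Up φ T := by simp only [sq]
    _ = ∑ S, φ S * Dn (Up φ) S := h1
    _ = ∑ S, (Up (Dn φ) S * φ S + ((n : ℝ) - 2 * i) * φ S ^ 2) :=
        Finset.sum_congr rfl fun S _ => h3 S
    _ = ∑ S, Dn φ S * Dn φ S + ((n : ℝ) - 2 * i) * ∑ S, φ S ^ 2 := by
        rw [Finset.sum_add_distrib, h2, Finset.mul_sum]
    _ = _ := by simp only [sq]

theorem norm_up_le {i : ℕ} (hi : i ≤ n) {φ : Finset (Fin n) → ℝ} (h : Lvl i φ)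
    (h0 : ∑ S, φ S = 0) : ∑ T, Up φ T ^ 2 ≤ (i : ℝ) * ((n : ℝ) - 1 - i) * ∑ S, φ S ^ 2 := by
  induction i generalizing φ with
  | zero =>
    have hz : ∀ S, φ S = 0 := by
      intro S
      by_cases hS : S.card = 0
      · rw [Finset.card_eq_zero] at hS
        subst hS
        have := Finset.sum_eq_single (s := (Finset.univ : Finset (Finset (Fin n)))) (f := φ) ∅
          (fun b _ hb => h b (by rwa [Ne, Finset.card_eq_zero])) (by simp)
        rw [← this, h0]
      · exact h S hS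
    have hu : ∀ T, Up φ T = 0 := by
      intro T
      unfold Up
      exact Finset.sum_eq_zero fun x _ => hz _
    simp [hu]
  | succ i ih =>
    have hd := h.dn
    have hd0 := sum_dn h h0
    have h1 := ih (by omega) hd hd0
    have h2 := norm_up h
    have h3 : ∑ S, Dn φ S ^ 2 = ∑ T, Up (Dn φ) T * φ T := by
      rw [adj (Dn φ) φ]
      simp only [sq]
    have h4 := Finset.sum_mul_sq_le_sq_mul_sq Finset.univ (Up (Dn φ)) φ
    rw [← h3] at h4
    have hnn : 0 ≤ ∑ S, φ S ^ 2 := Finset.sum_nonneg fun _ _ => sq_nonneg _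
    have hdn : 0 ≤ ∑ S, Dn φ S ^ 2 := Finset.sum_nonneg fun _ _ => sq_nonneg _
    have hin : (i : ℝ) + 1 ≤ n := by exact_mod_cast hi
    have hi0 : (0 : ℝ) ≤ i := Nat.cast_nonneg i
    have hc : 0 ≤ (i : ℝ) * ((n : ℝ) - 1 - i) := mul_nonneg hi0 (by linarith)
    have h5 : ∑ S, Dn φ S ^ 2 ≤ (i : ℝ) * ((n : ℝ) - 1 - i) * ∑ S, φ S ^ 2 := by
      rcases hdn.eq_or_lt with h6 | h6
      · rw [← h6]
        exact mul_nonneg hc hnn
      · have h7 : (∑ S, Dn φ S ^ 2) ^ 2
            ≤ (i : ℝ) * ((n : ℝ) - 1 - i) * (∑ S, φ S ^ 2) * ∑ S, Dn φ S ^ 2 := by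
          calc (∑ S, Dn φ S ^ 2) ^ 2 ≤ (∑ T, Up (Dn φ) T ^ 2) * ∑ S, φ S ^ 2 := h4
            _ ≤ ((i : ℝ) * ((n : ℝ) - 1 - i) * ∑ S, Dn φ S ^ 2) * ∑ S, φ S ^ 2 :=
                mul_le_mul_of_nonneg_right h1 hnn
            _ = _ := by ring
        rw [sq] at h7
        exact le_of_mul_le_mul_right h7 h6
    rw [h2]
    push_cast
    nlinarith [h5]

theorem sum_up {i : ℕ} {φ : Finset (Fin n) → ℝ} (h : Lvl i φ) (h0 : ∑ S, φ S = 0) :
    ∑ S, Up φ S = 0 := by
  have h1 := adj φ (fun _ => (1 : ℝ))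
  simp only [mul_one] at h1
  rw [h1]
  have h2 : ∀ T : Finset (Fin n), φ T * Dn (fun _ => (1 : ℝ)) T = ((n : ℝ) - i) * φ T := by
    intro T
    by_cases hT : T.card = i
    · unfold Dn
      rw [Finset.sum_const, Finset.card_compl, Fintype.card_fin, nsmul_eq_mul,
        Nat.cast_sub (by simpa using Finset.card_le_univ T), hT]
      ring
    · rw [h T hT]
      simp
  rw [Finset.sum_congr rfl fun T _ => h2 T, ← Finset.mul_sum, h0, mul_zero]

/-- Sum over the subsets with `k` elements less. -/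
noncomputable def W (k : ℕ) (ψ : Finset (Fin n) → ℝ) (T : Finset (Fin n)) : ℝ :=
  ∑ S ∈ T.powerset.filter (fun S => S.card + k = T.card), ψ S

theorem W_zero (ψ : Finset (Fin n) → ℝ) : W 0 ψ = ψ := by
  funext T
  unfold W
  have : T.powerset.filter (fun S => S.card + 0 = T.card) = {T} := by
    ext S
    simp only [Finset.mem_filter, Finset.mem_powerset, Finset.mem_singleton, add_zero]
    constructor
    · rintro ⟨h1, h2⟩
      exact Finset.eq_of_subset_of_card_le h1 h2.ge
    · rintro rfl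
      exact ⟨Finset.Subset.refl _, rfl⟩
  rw [this, Finset.sum_singleton]

theorem up_W (k : ℕ) (ψ : Finset (Fin n) → ℝ) (T : Finset (Fin n)) :
    Up (W k ψ) T = (k + 1) * W (k + 1) ψ T := by
  unfold Up W
  rw [Finset.sum_comm' (s := T)
    (t := fun x => (T.erase x).powerset.filter (fun S => S.card + k = (T.erase x).card))
    (t' := T.powerset.filter (fun S => S.card + (k + 1) = T.card))
    (s' := fun S => T \ S)]
  · rw [Finset.mul_sum]
    refine Finset.sum_congr rfl fun S hS => ?_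
    rw [Finset.mem_filter, Finset.mem_powerset] at hS
    rw [Finset.sum_const, nsmul_eq_mul, Finset.card_sdiff_of_subset hS.1]
    have : T.card - S.card = k + 1 := by omega
    rw [this]
    push_cast
    ring
  · intro x S
    simp only [Finset.mem_filter, Finset.mem_powerset, Finset.mem_sdiff]
    constructor
    · rintro ⟨hx, h1, h2⟩
      have h3 : x ∉ S := fun h => (Finset.mem_erase.1 (h1 h)).1 rfl
      rw [Finset.card_erase_of_mem hx] at h2
      have : 0 < T.card := Finset.card_pos.2 ⟨x, hx⟩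
      exact ⟨⟨hx, h3⟩, h1.trans (Finset.erase_subset _ _), by omega⟩
    · rintro ⟨⟨hx, h3⟩, h1, h2⟩
      refine ⟨hx, Finset.subset_erase.2 ⟨h1, h3⟩, ?_⟩
      rw [Finset.card_erase_of_mem hx]
      omega

theorem W_lvl {r : ℕ} {ψ : Finset (Fin n) → ℝ} (h : Lvl r ψ) (h0 : ∑ S, ψ S = 0) (k : ℕ) :
    Lvl (r + k) (W k ψ) ∧ ∑ S, W k ψ S = 0 := by
  constructor
  · intro T hT
    unfold W
    refine Finset.sum_eq_zero fun S hS => h S ?_
    have := (Finset.mem_filter.1 hS).2
    omega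
  · induction k with
    | zero => rw [W_zero]; exact h0
    | succ k ih =>
      have hl : Lvl (r + k) (W k ψ) := by
        intro T hT
        unfold W
        refine Finset.sum_eq_zero fun S hS => h S ?_
        have := (Finset.mem_filter.1 hS).2
        omega
      have h1 := sum_up hl ih
      rw [Finset.sum_congr rfl fun S _ => up_W k ψ S, ← Finset.mul_sum] at h1
      rcases mul_eq_zero.1 h1 with h2 | h2
      · exfalso
        have : (0 : ℝ) < k + 1 := by positivity
        linarith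
      · exact h2

theorem norm_W {r : ℕ} (hr : 1 ≤ r) {ψ : Finset (Fin n) → ℝ} (h : Lvl r ψ) (h0 : ∑ S, ψ S = 0)
    (k : ℕ) (hk : r + k ≤ n) : ∑ T, W k ψ T ^ 2 ≤
      ((r - 1 + k).choose k : ℝ) * ((n - 1 - r).choose k : ℝ) * ∑ S, ψ S ^ 2 := by
  induction k with
  | zero => rw [W_zero]; simp
  | succ k ih =>
    have hl := W_lvl h h0 k
    have h1 := norm_up_le (by omega) hl.1 hl.2
    have ih' := ih (by omega)
    have h2 : ∀ T, Up (W k ψ) T ^ 2 = ((k : ℝ) + 1) ^ 2 * W (k + 1) ψ T ^ 2 := by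
      intro T
      rw [up_W]
      ring
    rw [Finset.sum_congr rfl fun T _ => h2 T, ← Finset.mul_sum] at h1
    have hk1 : ((k : ℝ) + 1) ^ 2 ≠ 0 := by positivity
    have hkp : 0 < ((k : ℝ) + 1) ^ 2 := by positivity
    have hc : 0 ≤ ((r + k : ℕ) : ℝ) * ((n : ℝ) - 1 - ((r + k : ℕ) : ℝ)) := by
      refine mul_nonneg (Nat.cast_nonneg _) ?_
      have : ((r + k + 1 : ℕ) : ℝ) ≤ n := by exact_mod_cast hk
      push_cast at *
      linarith
    have h3 : ((k : ℝ) + 1) ^ 2 * ∑ T, W (k + 1) ψ T ^ 2 ≤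
        ((r + k : ℕ) : ℝ) * ((n : ℝ) - 1 - ((r + k : ℕ) : ℝ)) *
          (((r - 1 + k).choose k : ℝ) * ((n - 1 - r).choose k : ℝ) * ∑ S, ψ S ^ 2) :=
      h1.trans (mul_le_mul_of_nonneg_left ih' hc)
    have e1 : ((r - 1 + (k + 1)).choose (k + 1) : ℝ) * (k + 1)
        = ((r + k : ℕ) : ℝ) * ((r - 1 + k).choose k : ℝ) := by
      have := Nat.add_one_mul_choose_eq (r - 1 + k) k
      have h5 : r - 1 + k + 1 = r + k := by omega
      rw [h5] at this
      rw [show r - 1 + (k + 1) = r + k by omega]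
      exact_mod_cast this.symm
    have e2 : ((n - 1 - r).choose (k + 1) : ℝ) * (k + 1)
        = ((n : ℝ) - 1 - ((r + k : ℕ) : ℝ)) * ((n - 1 - r).choose k : ℝ) := by
      have := Nat.choose_succ_right_eq (n - 1 - r) k
      have h6 : ((n - 1 - r - k : ℕ) : ℝ) = (n : ℝ) - 1 - ((r + k : ℕ) : ℝ) := by
        rw [show n - 1 - r - k = n - (1 + (r + k)) by omega, Nat.cast_sub (by omega)]
        push_cast
        ring
      rw [← h6, mul_comm ((n - 1 - r - k : ℕ) : ℝ)]
      exact_mod_cast this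
    have h4 : ((k : ℝ) + 1) ^ 2 * ∑ T, W (k + 1) ψ T ^ 2 ≤ ((k : ℝ) + 1) ^ 2 *
        (((r - 1 + (k + 1)).choose (k + 1) : ℝ) * ((n - 1 - r).choose (k + 1) : ℝ) *
          ∑ S, ψ S ^ 2) := by
      refine h3.trans (le_of_eq ?_)
      have : ((k : ℝ) + 1) ^ 2 *
        (((r - 1 + (k + 1)).choose (k + 1) : ℝ) * ((n - 1 - r).choose (k + 1) : ℝ) *
          ∑ S, ψ S ^ 2) = (((r - 1 + (k + 1)).choose (k + 1) : ℝ) * (k + 1)) *
          (((n - 1 - r).choose (k + 1) : ℝ) * (k + 1)) * ∑ S, ψ S ^ 2 := by ring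
      rw [this, e1, e2]
      ring
    exact le_of_mul_le_mul_left h4 hkp

end Kneser

open Kneser in
/-- expander inequality in the Kneser graph of `r`-subsets of `[n]` -/
theorem expander {n r : ℕ} (hr : 1 ≤ r) (hn : 2 * r + 1 ≤ n)
    (B C : Finset (Finset (Fin n))) (hB : ∀ S ∈ B, S.card = r) (hC : ∀ S ∈ C, S.card = r)
    (h : n.choose r ≤ B.card + C.card) :
    B.card * C.card * (n - r - 1).choose r ≤ pairs B C * n.choose r := by
  classical
  set N : ℝ := (n.choose r : ℝ) with hN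
  have hNpos : 0 < N := by
    rw [hN]
    exact_mod_cast Nat.choose_pos (by omega)
  set b : ℝ := (B.card : ℝ) with hb
  set c : ℝ := (C.card : ℝ) with hc
  -- the level
  set L : Finset (Finset (Fin n)) := Finset.powersetCard r Finset.univ with hL
  have hLcard : (L.card : ℝ) = N := by
    rw [hL, Finset.card_powersetCard, Finset.card_univ, Fintype.card_fin]
  have hmemL : ∀ S, S ∈ L ↔ S.card = r := by
    intro S
    rw [hL, Finset.mem_powersetCard]
    simp
  have hBL : B ⊆ L := fun S hS => (hmemL S).2 (hB S hS)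
  have hCL : C ⊆ L := fun S hS => (hmemL S).2 (hC S hS)
  -- the functions
  set φ : Finset (Fin n) → ℝ := fun S => (if S ∈ B then 1 else 0) - b / N * (if S ∈ L then 1 else 0)
    with hφ
  set ψ : Finset (Fin n) → ℝ := fun S => (if S ∈ C then 1 else 0) - c / N * (if S ∈ L then 1 else 0)
    with hψ
  have key : ∀ (A : Finset (Finset (Fin n))), A ⊆ L →
      Lvl r (fun S => (if S ∈ A then (1 : ℝ) else 0) - (A.card : ℝ) / N * (if S ∈ L then 1 else 0)) ∧
      ∑ S, ((if S ∈ A then (1 : ℝ) else 0) - (A.card : ℝ) / N * (if S ∈ L then 1 else 0)) = 0 ∧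
      ∑ S, ((if S ∈ A then (1 : ℝ) else 0) - (A.card : ℝ) / N * (if S ∈ L then 1 else 0)) ^ 2
        = (A.card : ℝ) * (N - A.card) / N := by
    intro A hA
    have s1 : ∑ S : Finset (Fin n), (if S ∈ A then (1 : ℝ) else 0) = A.card := by
      rw [Finset.sum_ite_mem]
      simp
    have s2 : ∑ S : Finset (Fin n), (if S ∈ L then (1 : ℝ) else 0) = N := by
      rw [Finset.sum_ite_mem]
      simp [hLcard]
    refine ⟨?_, ?_, ?_⟩
    · intro S hS
      have h1 : S ∉ L := fun h => hS ((hmemL S).1 h)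
      have h2 : S ∉ A := fun h => h1 (hA h)
      simp [h1, h2]
    · rw [Finset.sum_sub_distrib, ← Finset.mul_sum, s1, s2]
      field_simp
      ring
    · have s3 : ∀ S : Finset (Fin n),
          ((if S ∈ A then (1 : ℝ) else 0) - (A.card : ℝ) / N * (if S ∈ L then 1 else 0)) ^ 2
          = (1 - 2 * ((A.card : ℝ) / N)) * (if S ∈ A then (1 : ℝ) else 0)
            + ((A.card : ℝ) / N) ^ 2 * (if S ∈ L then 1 else 0) := by
        intro S
        by_cases h1 : S ∈ A
        · have h2 : S ∈ L := hA h1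
          simp only [h1, h2, if_true]
          ring
        · by_cases h2 : S ∈ L
          · simp only [h1, h2, if_true, if_false]
            ring
          · simp only [h1, h2, if_false]
            ring
      rw [Finset.sum_congr rfl fun S _ => s3 S, Finset.sum_add_distrib, ← Finset.mul_sum,
        ← Finset.mul_sum, s1, s2]
      field_simp
      ring
  obtain ⟨-, -, hφ3⟩ := key B hBL
  obtain ⟨hψ1, hψ2, hψ3⟩ := key C hCL
  change ∑ S, φ S ^ 2 = b * (N - b) / N at hφ3
  change Lvl r ψ at hψ1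
  change ∑ S, ψ S = 0 at hψ2
  change ∑ S, ψ S ^ 2 = c * (N - c) / N at hψ3
  set m : ℕ := n - 2 * r with hm
  set lam : ℝ := ((n - r - 1).choose (r - 1) : ℝ) with hlam
  have hlam0 : 0 ≤ lam := Nat.cast_nonneg _
  -- the norm of the operator
  have hW : ∑ T, W m ψ T ^ 2 ≤ lam ^ 2 * ∑ S, ψ S ^ 2 := by
    have h1 := norm_W hr hψ1 hψ2 m (by omega)
    have h2 : (r - 1 + m).choose m = (n - r - 1).choose (r - 1) := by
      rw [show r - 1 + m = n - r - 1 by omega]
      exact (Nat.choose_symm_of_eq_add (by omega)).symm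
    have h3 : (n - 1 - r).choose m = (n - r - 1).choose (r - 1) := by
      rw [show n - 1 - r = n - r - 1 by omega]
      exact (Nat.choose_symm_of_eq_add (by omega)).symm
    rw [h2, h3] at h1
    rw [hlam, sq]
    exact h1
  obtain ⟨hWl, hW0⟩ := W_lvl hψ1 hψ2 m
  -- complement
  have hcompl : ∀ f : Finset (Fin n) → ℝ, ∑ R, f Rᶜ = ∑ T, f T := fun f =>
    Fintype.sum_equiv (Equiv.mk (fun R : Finset (Fin n) => Rᶜ) (fun R => Rᶜ)
      (fun R => compl_compl R) (fun R => compl_compl R)) _ _ (fun _ => rfl)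
  set E : ℝ := ∑ R, φ R * W m ψ Rᶜ with hE
  have hE2 : E ^ 2 ≤ (lam * (b * c / N)) ^ 2 := by
    have h1 := Finset.sum_mul_sq_le_sq_mul_sq Finset.univ φ (fun R => W m ψ Rᶜ)
    rw [hcompl (fun T => W m ψ T ^ 2)] at h1
    have hb0 : 0 ≤ b := Nat.cast_nonneg _
    have hc0 : 0 ≤ c := Nat.cast_nonneg _
    have hbN : b ≤ N := by
      rw [← hLcard, hb]
      exact_mod_cast Finset.card_le_card hBL
    have hcN : c ≤ N := by
      rw [← hLcard, hc]
      exact_mod_cast Finset.card_le_card hCL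
    have hbc : N ≤ b + c := by
      rw [hN, hb, hc]
      exact_mod_cast h
    have h2 : 0 ≤ ∑ S, φ S ^ 2 := Finset.sum_nonneg fun _ _ => sq_nonneg _
    calc E ^ 2 ≤ (∑ S, φ S ^ 2) * ∑ T, W m ψ T ^ 2 := h1
      _ ≤ (∑ S, φ S ^ 2) * (lam ^ 2 * ∑ S, ψ S ^ 2) := mul_le_mul_of_nonneg_left hW h2
      _ = lam ^ 2 * ((b * c) * ((N - b) * (N - c))) / N ^ 2 := by
          rw [hφ3, hψ3]
          field_simp
      _ ≤ lam ^ 2 * ((b * c) * (c * b)) / N ^ 2 := by
          gcongr
          · linarith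
          · linarith
      _ = (lam * (b * c / N)) ^ 2 := by
          field_simp
  have hbcN : 0 ≤ b * c / N := by positivity
  have hE3 : -(lam * (b * c / N)) ≤ E := (abs_le.1 (abs_le_of_sq_le_sq hE2 (by positivity))).1
  -- the number of pairs
  have hpairs : (pairs B C : ℝ) = ∑ R ∈ B, W m (fun S => if S ∈ C then (1 : ℝ) else 0) Rᶜ := by
    unfold pairs
    rw [Finset.card_filter, Finset.sum_product]
    push_cast
    refine Finset.sum_congr rfl fun R hR => ?_
    unfold W
    rw [← Finset.sum_filter, ← Finset.sum_filter]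
    rw [Finset.sum_const, Finset.sum_const]
    congr 2
    ext S
    have hRc : Rᶜ.card = n - r := by
      rw [Finset.card_compl, Fintype.card_fin, hB R hR]
    simp only [Finset.mem_filter, Finset.mem_powerset, hRc]
    constructor
    · rintro ⟨h1, h2⟩
      refine ⟨⟨?_, ?_⟩, h1⟩
      · intro y hy
        rw [Finset.mem_compl]
        exact fun hyR => (Finset.disjoint_left.1 h2 hyR hy)
      · rw [hC S h1]
        omega
    · rintro ⟨⟨h1, -⟩, h2⟩
      refine ⟨h2, Finset.disjoint_left.2 fun y hyR hyS => ?_⟩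
      exact Finset.mem_compl.1 (h1 hyS) hyR
  have hsplit : ∀ R ∈ B, W m (fun S => if S ∈ C then (1 : ℝ) else 0) Rᶜ
      = W m ψ Rᶜ + c / N * ((n - r).choose r : ℝ) := by
    intro R hR
    have hRc : Rᶜ.card = n - r := by
      rw [Finset.card_compl, Fintype.card_fin, hB R hR]
    have h1 : ∀ S : Finset (Fin n), (if S ∈ C then (1 : ℝ) else 0)
        = ψ S + c / N * (if S ∈ L then 1 else 0) := fun S => by
      rw [hψ]
      ring
    unfold W
    rw [Finset.sum_congr rfl fun S _ => h1 S, Finset.sum_add_distrib, ← Finset.mul_sum]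
    congr 2
    rw [← Finset.sum_filter, Finset.sum_const, nsmul_eq_mul, mul_one]
    have h2 : (Rᶜ.powerset.filter fun S => S.card + m = Rᶜ.card).filter (fun S => S ∈ L)
        = Finset.powersetCard r Rᶜ := by
      ext S
      simp only [Finset.mem_filter, Finset.mem_powerset, hmemL, Finset.mem_powersetCard, hRc]
      constructor
      · rintro ⟨⟨h3, -⟩, h4⟩
        exact ⟨h3, h4⟩
      · rintro ⟨h3, h4⟩
        exact ⟨⟨h3, by omega⟩, h4⟩
    rw [h2, Finset.card_powersetCard, hRc]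
  have hsumB : ∑ R ∈ B, W m ψ Rᶜ = E := by
    have h1 : ∑ R ∈ B, W m ψ Rᶜ = ∑ R, (if R ∈ B then (1 : ℝ) else 0) * W m ψ Rᶜ := by
      simp only [ite_mul, one_mul, zero_mul]
      rw [Finset.sum_ite_mem, Finset.univ_inter]
    have h2 : ∀ R : Finset (Fin n), (if R ∈ B then (1 : ℝ) else 0) * W m ψ Rᶜ
        = φ R * W m ψ Rᶜ + b / N * W m ψ Rᶜ := by
      intro R
      by_cases hR : R ∈ L
      · rw [hφ]
        simp only [hR, if_true]
        ring
      · have h3 : W m ψ Rᶜ = 0 := by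
          refine hWl _ fun h4 => hR ((hmemL R).2 ?_)
          rw [Finset.card_compl, Fintype.card_fin] at h4
          have := Finset.card_le_univ R
          rw [Fintype.card_fin] at this
          omega
        rw [h3]
        ring
    rw [h1, Finset.sum_congr rfl fun R _ => h2 R, Finset.sum_add_distrib, ← Finset.mul_sum,
      hcompl (fun T => W m ψ T), hW0, mul_zero, add_zero]
  have htot : (pairs B C : ℝ) = E + b * (c / N * ((n - r).choose r : ℝ)) := by
    rw [hpairs, Finset.sum_congr rfl hsplit, Finset.sum_add_distrib, hsumB, Finset.sum_const,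
      nsmul_eq_mul]
  have hpascal : ((n - r).choose r : ℝ) = lam + ((n - r - 1).choose r : ℝ) := by
    have := Nat.choose_succ_succ' (n - r - 1) (r - 1)
    rw [show n - r - 1 + 1 = n - r by omega, show r - 1 + 1 = r by omega] at this
    rw [this, hlam]
    push_cast
    ring
  have hfin : b * c * ((n - r - 1).choose r : ℝ) ≤ (pairs B C : ℝ) * N := by
    rw [htot, hpascal]
    have e1 : (E + b * (c / N * (lam + ((n - r - 1).choose r : ℝ)))) * N
        = (E + lam * (b * c / N)) * N + b * c * ((n - r - 1).choose r : ℝ) := by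
      field_simp
      ring
    rw [e1]
    have e2 : 0 ≤ (E + lam * (b * c / N)) * N := mul_nonneg (by linarith) hNpos.le
    linarith
  have : ((B.card * C.card * (n - r - 1).choose r : ℕ) : ℝ)
      ≤ ((pairs B C * n.choose r : ℕ) : ℝ) := by
    push_cast
    exact hfin
  exact_mod_cast this

end Pool.Agent.EA
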