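import Pool.Agent.EA.Prod

/-!
# EA: leading monomials of subspaces
-/

set_option autoImplicit false

namespace Pool.Agent.EA

open ExteriorAlgebra Module

theorem wt_injective {n : ℕ} : Function.Injective (wt : Finset (Fin n) → ℕ) := by
  intro S T h
  unfold wt at h
  have e : ∀ A : Finset (Fin n), ∑ i ∈ A, 2 ^ (i : ℕ) = ∑ i ∈ A.map Fin.valEmbedding, 2 ^ i := by
    intro A
    rw [Finset.sum_map]
    rfl
  rw [e, e] at h
  have h2 := Finset.geomSum_injective (n := 2) le_rfl h
  exact Finset.map_injective _ h2

theorem wt_union {n : ℕ} {S T : Finset (Fin n)} (h : Disjoint S T) :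
    wt (S ∪ T) = wt S + wt T := by
  unfold wt
  rw [Finset.sum_union h]

variable {K : Type} [Field K] {n : ℕ}

/-- `S` is the leading monomial of `y` -/
def IsLead (y : E K n) (S : Finset (Fin n)) : Prop :=
  co K n S y ≠ 0 ∧ ∀ T, co K n T y ≠ 0 → wt T ≤ wt S

theorem exists_isLead {y : E K n} (hy : y ≠ 0) : ∃ S, IsLead y S := by
  classical
  have h1 : (Finset.univ.filter fun S : Finset (Fin n) => co K n S y ≠ 0).Nonempty := by
    rw [Finset.filter_nonempty_iff]
    by_contra h
    push Not at h
    apply hy
    apply co_ext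
    intro S
    rw [h S (Finset.mem_univ _), map_zero]
  obtain ⟨S, hS, hmax⟩ := Finset.exists_max_image _ wt h1
  refine ⟨S, (Finset.mem_filter.mp hS).2, fun T hT => hmax T ?_⟩
  exact Finset.mem_filter.mpr ⟨Finset.mem_univ _, hT⟩

open Classical in
/-- the leading monomials of the elements of `W` -/
noncomputable def lead (W : Submodule K (E K n)) : Finset (Finset (Fin n)) :=
  Finset.univ.filter fun S => ∃ y ∈ W, IsLead y S

theorem mem_lead {W : Submodule K (E K n)} {S : Finset (Fin n)} :
    S ∈ lead W ↔ ∃ y ∈ W, IsLead y S := by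
  classical
  unfold lead
  exact ⟨fun h => (Finset.mem_filter.mp h).2,
    fun h => Finset.mem_filter.mpr ⟨Finset.mem_univ _, h⟩⟩

theorem card_of_isLead {y : E K n} {S : Finset (Fin n)} {r : ℕ} (h : IsLead y S)
    (hy : y ∈ ⋀[K]^r (V K n)) : S.card = r := by
  by_contra hS
  exact h.1 (co_eq_zero hy hS)

theorem card_of_mem_lead {W : Submodule K (E K n)} {S : Finset (Fin n)} {r : ℕ}
    (h : S ∈ lead W) (hW : W ≤ ⋀[K]^r (V K n)) : S.card = r := by
  obtain ⟨y, hy, hl⟩ := mem_lead.mp h
  exact card_of_isLead hl (hW hy)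

instance : FiniteDimensional K (E K n) := Module.Finite.of_basis (extBasis K n)

theorem finrank_le_card_lead (W : Submodule K (E K n)) : finrank K W ≤ (lead W).card := by
  have h1 : Function.Injective
      (LinearMap.pi (fun S : {S // S ∈ lead W} => (co K n S.1).comp W.subtype) :
        W →ₗ[K] ({S // S ∈ lead W} → K)) := by
    rw [← LinearMap.ker_eq_bot, LinearMap.ker_eq_bot']
    intro y hy
    by_contra hne
    have hne' : (y : E K n) ≠ 0 := fun h => hne (Subtype.ext h)
    obtain ⟨S, hS⟩ := exists_isLead hne'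
    have := congrFun hy ⟨S, mem_lead.mpr ⟨y, y.2, hS⟩⟩
    exact hS.1 this
  have h2 := LinearMap.finrank_le_finrank_of_injective h1
  rwa [Module.finrank_fintype_fun_eq_card, Fintype.card_coe] at h2

theorem card_lead_le_finrank (W : Submodule K (E K n)) : (lead W).card ≤ finrank K W := by
  classical
  choose y hyW hy using fun S : {S // S ∈ lead W} => mem_lead.mp S.2
  have hli : LinearIndependent K (fun S => (⟨y S, hyW S⟩ : W)) := by
    rw [Fintype.linearIndependent_iff]
    intro g hg
    by_contra hne
    push Not at hne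
    obtain ⟨S0, hS0⟩ := hne
    obtain ⟨S, hS, hmax⟩ := Finset.exists_max_image
      (Finset.univ.filter fun S : {S // S ∈ lead W} => g S ≠ 0)
      (fun S => wt S.1) ⟨S0, Finset.mem_filter.mpr ⟨Finset.mem_univ _, hS0⟩⟩
    have hgS : g S ≠ 0 := (Finset.mem_filter.mp hS).2
    have h1 : ∑ T, g T • y T = 0 := by
      have := congrArg (Submodule.subtype W) hg
      rw [map_sum, map_zero] at this
      simpa using this
    have h2 := congrArg (co K n S.1) h1
    rw [map_sum, map_zero, Finset.sum_eq_single S] at h2
    · rw [map_smul, smul_eq_mul] at h2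
      exact (mul_ne_zero hgS (hy S).1) h2
    · intro T _ hTS
      by_cases hgT : g T = 0
      · rw [hgT, zero_smul, map_zero]
      · have h3 : wt T.1 ≤ wt S.1 := hmax T (Finset.mem_filter.mpr ⟨Finset.mem_univ _, hgT⟩)
        have h4 : wt T.1 ≠ wt S.1 := fun h => hTS (Subtype.ext (wt_injective h))
        have h5 : co K n S.1 (y T) = 0 := by
          by_contra hc
          have := (hy T).2 S.1 hc
          omega
        rw [map_smul, h5, smul_zero]
    · intro h
      exact absurd (Finset.mem_univ _) h
  have := hli.fintype_card_le_finrank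
  rwa [Fintype.card_coe] at this

theorem card_lead (W : Submodule K (E K n)) : (lead W).card = finrank K W :=
  le_antisymm (card_lead_le_finrank W) (finrank_le_card_lead W)

/-- the leading monomial of a product -/
theorem isLead_mul {y z : E K n} {S T : Finset (Fin n)} (hy : IsLead y S) (hz : IsLead z T)
    (h : Disjoint S T) : IsLead (y * z) (S ∪ T) := by
  classical
  constructor
  · rw [co_mul, Finset.sum_eq_single S]
    · rw [Finset.union_sdiff_cancel_left h]
      exact mul_ne_zero (sg_cast_ne_zero h) (mul_ne_zero hy.1 hz.1)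
    · intro U hU hUS
      rw [Finset.mem_powerset] at hU
      by_contra hne
      have hne2 := right_ne_zero_of_mul hne
      have h1 := hy.2 U (left_ne_zero_of_mul hne2)
      have h2 := hz.2 _ (right_ne_zero_of_mul hne2)
      have h3 : wt (S ∪ T) = wt U + wt ((S ∪ T) \ U) := by
        rw [← wt_union Finset.disjoint_sdiff, Finset.union_sdiff_of_subset hU]
      rw [wt_union h] at h3
      exact hUS (wt_injective (by omega))
    · intro hS
      exact absurd (Finset.mem_powerset.mpr Finset.subset_union_left) hS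
  · intro U hU
    rw [co_mul] at hU
    obtain ⟨A, hA, hne⟩ := Finset.exists_ne_zero_of_sum_ne_zero hU
    rw [Finset.mem_powerset] at hA
    have hne2 := right_ne_zero_of_mul hne
    have h1 := hy.2 A (left_ne_zero_of_mul hne2)
    have h2 := hz.2 _ (right_ne_zero_of_mul hne2)
    have h3 : wt U = wt A + wt (U \ A) := by
      rw [← wt_union Finset.disjoint_sdiff, Finset.union_sdiff_of_subset hA]
    rw [wt_union h]
    omega

theorem lead_mul {X Y P : Submodule K (E K n)} (h : ∀ y ∈ X, ∀ z ∈ Y, y * z ∈ P)
    {S T : Finset (Fin n)} (hS : S ∈ lead X) (hT : T ∈ lead Y) (hd : Disjoint S T) :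
    S ∪ T ∈ lead P := by
  obtain ⟨y, hy, hyS⟩ := mem_lead.mp hS
  obtain ⟨z, hz, hzT⟩ := mem_lead.mp hT
  exact mem_lead.mpr ⟨y * z, h y hy z hz, isLead_mul hyS hzT hd⟩

theorem isLead_x (S : Finset (Fin n)) : IsLead (x K n S) S := by
  constructor
  · rw [co_x, if_pos rfl]; exact one_ne_zero
  · intro T hT
    rw [co_x] at hT
    by_cases h : S = T
    · rw [h]
    · rw [if_neg h] at hT; exact absurd rfl hT

/-- a nonzero element of degree `s` has at least `C(n-s, r)` independent multiples in
degree `s + r` -/
theorem card_le_mul {y : E K n} {s r : ℕ} (hy : y ≠ 0) (hys : y ∈ ⋀[K]^s (V K n))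
    {P : Submodule K (E K n)} (h : ∀ z ∈ ⋀[K]^r (V K n), y * z ∈ P) :
    (n - s).choose r ≤ finrank K P := by
  classical
  obtain ⟨S, hS⟩ := exists_isLead hy
  have hSs := card_of_isLead hS hys
  rw [← card_lead]
  have h1 : (Finset.powersetCard r Sᶜ).card = (n - s).choose r := by
    rw [Finset.card_powersetCard, Finset.card_compl, Fintype.card_fin, hSs]
  rw [← h1]
  apply Finset.card_le_card_of_injOn (fun T => S ∪ T)
  · intro T hT
    rw [Finset.mem_coe, Finset.mem_powersetCard] at hT
    have hd : Disjoint S T := by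
      rw [Finset.disjoint_left]
      intro i hi hiT
      exact (Finset.mem_compl.mp (hT.1 hiT)) hi
    exact Finset.mem_coe.mpr (mem_lead.mpr ⟨y * x K n T, h _ (x_mem hT.2),
      isLead_mul hS (isLead_x T) hd⟩)
  · intro T hT T' hT' he
    rw [Finset.mem_coe, Finset.mem_powersetCard] at hT hT'
    have hd : ∀ T : Finset (Fin n), T ⊆ Sᶜ → Disjoint S T := by
      intro T hT
      rw [Finset.disjoint_left]
      intro i hi hiT
      exact (Finset.mem_compl.mp (hT hiT)) hi
    have h2 : (S ∪ T) \ S = (S ∪ T') \ S := by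
      have he' : S ∪ T = S ∪ T' := he
      rw [he']
    rwa [Finset.union_sdiff_cancel_left (hd T hT.1),
      Finset.union_sdiff_cancel_left (hd T' hT'.1)] at h2

end Pool.Agent.EA
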