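import Pool.Agent.EA.Defs

/-!
# EA: products of monomials, coordinates, pairings
-/

set_option autoImplicit false

namespace Pool.Agent.EA

open ExteriorAlgebra Module

theorem sg_of_not_disjoint {n : ℕ} {S T : Finset (Fin n)} (h : ¬ Disjoint S T) : sg S T = 0 := by
  unfold sg
  rw [dif_neg h]

theorem sg_eq_one_or {n : ℕ} {S T : Finset (Fin n)} (h : Disjoint S T) :
    sg S T = 1 ∨ sg S T = -1 := by
  unfold sg
  rw [dif_pos h]
  rcases Int.units_eq_one_or (Equiv.Perm.sign (Set.powersetCard.permOfDisjoint
      (s := (Set.powersetCard.ofCard rfl : Set.powersetCard (Fin n) S.card))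
      (t := (Set.powersetCard.ofCard rfl : Set.powersetCard (Fin n) T.card)) h)) with hs | hs
  · left; rw [hs]; rfl
  · right; rw [hs]; rfl

theorem sg_ne_zero {n : ℕ} {S T : Finset (Fin n)} (h : Disjoint S T) : sg S T ≠ 0 := by
  rcases sg_eq_one_or h with h | h <;> rw [h] <;> norm_num

variable {K : Type} [Field K] {n : ℕ}

theorem sg_cast_ne_zero {S T : Finset (Fin n)} (h : Disjoint S T) : ((sg S T : ℤ) : K) ≠ 0 := by
  rcases sg_eq_one_or h with h | h <;> rw [h] <;> simp

/-- graded commutativity, vector case -/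
theorem ι_mul_comm (v : Fin n → K) {s : ℕ} {y : E K n} (hy : y ∈ ⋀[K]^s (V K n)) :
    ExteriorAlgebra.ι K v * y = (-1 : K) ^ s • (y * ExteriorAlgebra.ι K v) := by
  induction hy using Submodule.pow_induction_on_left' with
  | algebraMap r => simp [Algebra.commutes]
  | add x y i _ _ hx hy => rw [mul_add, hx, hy, add_mul, smul_add]
  | mem_mul m hm i x _ ih =>
    obtain ⟨w, rfl⟩ := hm
    have h : ExteriorAlgebra.ι K v * ExteriorAlgebra.ι K w
        = - (ExteriorAlgebra.ι K w * ExteriorAlgebra.ι K v) :=
      eq_neg_of_add_eq_zero_left (ExteriorAlgebra.ι_add_mul_swap v w)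
    rw [← mul_assoc, h, neg_mul, mul_assoc, ih, mul_smul_comm, mul_assoc, pow_succ]
    simp

/-- graded commutativity -/
theorem graded_comm {r s : ℕ} {a b : E K n} (ha : a ∈ ⋀[K]^r (V K n))
    (hb : b ∈ ⋀[K]^s (V K n)) : a * b = (-1 : K) ^ (r * s) • (b * a) := by
  induction ha using Submodule.pow_induction_on_left' with
  | algebraMap r => simp [Algebra.commutes]
  | add x y i _ _ hx hy => rw [add_mul, hx, hy, mul_add, smul_add]
  | mem_mul m hm i x _ ih =>
    obtain ⟨w, rfl⟩ := hm
    rw [mul_assoc, ih, mul_smul_comm, ← mul_assoc, ι_mul_comm w hb, smul_mul_assoc, smul_smul,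
      mul_assoc, ← pow_add]
    congr 2
    rw [Nat.succ_eq_add_one]
    ring

theorem x_mem {S : Finset (Fin n)} {r : ℕ} (h : S.card = r) : x K n S ∈ ⋀[K]^r (V K n) := by
  subst h
  have := ExteriorAlgebra.basis_eq_coe_basis (stdBasis K n) (m := S.card)
    (Set.powersetCard.ofCard rfl : Set.powersetCard (Fin n) S.card)
  rw [Set.powersetCard.val_ofCard] at this
  rw [x, extBasis, this]
  exact Submodule.coe_mem _

/-- product of monomials -/
theorem x_mul (S T : Finset (Fin n)) :
    x K n S * x K n T = ((sg S T : ℤ) : K) • x K n (S ∪ T) := by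
  by_cases h : Disjoint S T
  · have h1 := ExteriorAlgebra.basis_mul_of_disjoint (stdBasis K n)
      (Set.powersetCard.ofCard rfl : Set.powersetCard (Fin n) S.card)
      (Set.powersetCard.ofCard rfl : Set.powersetCard (Fin n) T.card) h
    have e : (Set.powersetCard.disjUnion (s := (Set.powersetCard.ofCard rfl :
        Set.powersetCard (Fin n) S.card)) (t := (Set.powersetCard.ofCard rfl :
        Set.powersetCard (Fin n) T.card)) h).val = S ∪ T := Finset.disjUnion_eq_union _ _ h
    rw [e, Set.powersetCard.val_ofCard, Set.powersetCard.val_ofCard] at h1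
    rw [x, x, x, extBasis, h1]
    unfold sg
    rw [dif_pos h]
    rcases Int.units_eq_one_or (Equiv.Perm.sign (Set.powersetCard.permOfDisjoint
      (s := (Set.powersetCard.ofCard rfl : Set.powersetCard (Fin n) S.card))
      (t := (Set.powersetCard.ofCard rfl : Set.powersetCard (Fin n) T.card)) h)) with hs | hs
    · rw [hs]; simp
    · rw [hs]; simp
  · rw [sg_of_not_disjoint h, Int.cast_zero, zero_smul]
    exact ExteriorAlgebra.basis_mul_of_not_disjoint (stdBasis K n)
      (Set.powersetCard.ofCard rfl : Set.powersetCard (Fin n) S.card)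
      (Set.powersetCard.ofCard rfl : Set.powersetCard (Fin n) T.card) h

theorem co_x (S T : Finset (Fin n)) : co K n S (x K n T) = if T = S then 1 else 0 := by
  rw [co, x, Basis.coord_apply, Basis.repr_self, Finsupp.single_apply]

theorem sum_co (y : E K n) : y = ∑ S, co K n S y • x K n S := ((extBasis K n).sum_repr y).symm

theorem co_ext {y z : E K n} (h : ∀ S, co K n S y = co K n S z) : y = z := by
  rw [sum_co y, sum_co z]
  exact Finset.sum_congr rfl fun S _ => by rw [h]

/-- elements of degree `r` have coordinates only at sets of size `r` -/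
theorem co_eq_zero {r : ℕ} {y : E K n} (hy : y ∈ ⋀[K]^r (V K n)) {S : Finset (Fin n)}
    (hS : S.card ≠ r) : co K n S y = 0 := by
  have key : (co K n S).comp (⋀[K]^r (V K n)).subtype = 0 := by
    apply ((stdBasis K n).exteriorPower r).ext
    intro t
    rw [LinearMap.comp_apply, Submodule.subtype_apply, ← ExteriorAlgebra.basis_eq_coe_basis,
      LinearMap.zero_apply]
    change co K n S (x K n t) = 0
    rw [co_x, if_neg]
    rintro rfl
    exact hS t.2
  exact LinearMap.congr_fun key ⟨y, hy⟩

theorem mem_of_co {r : ℕ} {y : E K n} (h : ∀ S : Finset (Fin n), S.card ≠ r → co K n S y = 0) :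
    y ∈ ⋀[K]^r (V K n) := by
  rw [sum_co y]
  refine Submodule.sum_mem _ fun S _ => ?_
  by_cases hS : S.card = r
  · exact Submodule.smul_mem _ _ (x_mem hS)
  · rw [h S hS, zero_smul]; exact Submodule.zero_mem _

theorem mem_iff {r : ℕ} {y : E K n} :
    y ∈ ⋀[K]^r (V K n) ↔ ∀ S : Finset (Fin n), S.card ≠ r → co K n S y = 0 :=
  ⟨fun hy _ hS => co_eq_zero hy hS, mem_of_co⟩

theorem mul_mem {r s : ℕ} {a b : E K n} (ha : a ∈ ⋀[K]^r (V K n)) (hb : b ∈ ⋀[K]^s (V K n)) :
    a * b ∈ ⋀[K]^(r + s) (V K n) := SetLike.GradedMul.mul_mem ha hb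

/-- coordinates of a product -/
theorem co_mul (U : Finset (Fin n)) (a b : E K n) :
    co K n U (a * b)
      = ∑ S ∈ U.powerset, ((sg S (U \ S) : ℤ) : K) * (co K n S a * co K n (U \ S) b) := by
  classical
  have h1 : a * b = ∑ S, ∑ T, (co K n S a * co K n T b) • (x K n S * x K n T) := by
    conv_lhs => rw [sum_co a, sum_co b, Finset.sum_mul]
    refine Finset.sum_congr rfl fun S _ => ?_
    rw [Finset.mul_sum]
    refine Finset.sum_congr rfl fun T _ => ?_
    rw [smul_mul_assoc, mul_smul_comm, smul_smul]
  have h2 : ∀ S : Finset (Fin n), (∑ T, co K n U ((co K n S a * co K n T b) •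
      (x K n S * x K n T))) = if S ⊆ U then
        ((sg S (U \ S) : ℤ) : K) * (co K n S a * co K n (U \ S) b) else 0 := by
    intro S
    split_ifs with hSU
    · rw [Finset.sum_eq_single (U \ S)]
      · rw [map_smul, x_mul, map_smul, co_x, if_pos (Finset.union_sdiff_of_subset hSU)]
        simp only [smul_eq_mul, mul_one]
        ring
      · intro T _ hT
        rw [map_smul, x_mul, map_smul, co_x]
        by_cases hd : Disjoint S T
        · rw [if_neg]
          · simp
          · rintro rfl
            apply hT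
            rw [Finset.union_sdiff_cancel_left hd]
        · rw [sg_of_not_disjoint hd]; simp
      · intro h; exact absurd (Finset.mem_univ _) h
    · refine Finset.sum_eq_zero fun T _ => ?_
      rw [map_smul, x_mul, map_smul, co_x, if_neg]
      · simp
      · rintro rfl
        exact hSU Finset.subset_union_left
  rw [h1, map_sum]
  simp only [map_sum]
  rw [Finset.sum_congr rfl fun S _ => h2 S, ← Finset.sum_filter]
  refine Finset.sum_congr ?_ fun _ _ => rfl
  ext S
  simp

/-- the top coordinate pairs `x_S` with `x_{Sᶜ}` -/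
theorem top_pair (S : Finset (Fin n)) (y : E K n) :
    co K n Finset.univ (x K n S * y) = ((sg S Sᶜ : ℤ) : K) * co K n Sᶜ y := by
  classical
  rw [co_mul, Finset.sum_eq_single S]
  · rw [co_x, if_pos rfl, one_mul, ← Finset.compl_eq_univ_sdiff]
  · intro T _ hT
    rw [co_x, if_neg (Ne.symm hT), zero_mul, mul_zero]
  · intro h; exact absurd (Finset.mem_powerset.mpr (Finset.subset_univ _)) h

/-- nondegeneracy of the pairing of `Λ^k` and `Λ^l`, `k + l = n`. -/
theorem eq_zero_of_pair {k l : ℕ} (hkl : k + l = n) {y : E K n} (hy : y ∈ ⋀[K]^l (V K n))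
    (h : ∀ S : Finset (Fin n), S.card = k → co K n Finset.univ (x K n S * y) = 0) : y = 0 := by
  apply co_ext
  intro S
  rw [map_zero]
  by_cases hS : S.card = l
  · have h1 := h Sᶜ (by rw [Finset.card_compl, Fintype.card_fin]; omega)
    rw [top_pair, compl_compl] at h1
    exact (mul_eq_zero.mp h1).resolve_left
      (sg_cast_ne_zero (disjoint_compl_left))
  · exact co_eq_zero hy hS

end Pool.Agent.EA
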